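import Pool.Agent.Work.MP_8d2cba_co_h18.Basic

/-! MP_8d2cba_co: block NIB (helper59), from DEG, COD, INEQ, LP, NB. -/

set_option autoImplicit false
set_option linter.unusedSectionVars false

namespace Pool.OM.H59N
open Finset Pool.OM

section nib
variable {G : Type} [Group G] [Fintype G] [DecidableEq G]

abbrev EE (I : Finset (Idx G)) (V C : Finset G) :=
  Σ i : {i // i ∈ I}, {x // x ∈ pathsF V C i.1}

abbrev XX (V C : Finset G) := {v // v ∈ V} ⊕ {c // c ∈ C}

variable (I : Finset (Idx G)) (V C : Finset G)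

def inEl (e : EE I V C) : XX V C → Prop
  | Sum.inl v => ∃ j, e.2.1 j = v.1
  | Sum.inr c => c.1 ∈ pcols e.1.1.1 (List.ofFn e.2.1) e.1.1.2.1

open Classical in
noncomputable def elN (e : EE I V C) : Finset (XX V C) := univ.filter (inEl I V C e)

open Classical in
noncomputable def elL (e : EE I V C) : Finset ({i // i ∈ I} ⊕ XX V C) :=
  insert (Sum.inl e.1) ((elN I V C e).map ⟨Sum.inr, Sum.inr_injective⟩)

noncomputable def wt (e : EE I V C) : ℝ := 1 / ((pathsF V C e.1.1).card : ℝ)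

theorem mem_elN (e : EE I V C) (x : XX V C) : x ∈ elN I V C e ↔ inEl I V C e x := by
  simp [elN]

theorem mem_elL_inl (e : EE I V C) (i : {i // i ∈ I}) :
    Sum.inl i ∈ elL I V C e ↔ e.1 = i := by
  simp [elL, eq_comm]

theorem mem_elL_inr (e : EE I V C) (x : XX V C) :
    Sum.inr x ∈ elL I V C e ↔ inEl I V C e x := by
  simp [elL, mem_elN]

theorem mem_paths {i : Idx G} {x : Fin (i.2.2 - 1) → G} (h : x ∈ pathsF V C i) :
    Function.Injective x ∧ (∀ j, x j ∈ V) ∧ (pcols i.1 (List.ofFn x) i.2.1).Nodup ∧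
      ∀ c ∈ pcols i.1 (List.ofFn x) i.2.1, c ∈ C := by
  simpa [pathsF] using h

theorem sumE (p : EE I V C → Prop) [DecidablePred p]
    (q : (i : Idx G) → (Fin (i.2.2 - 1) → G) → Prop) [∀ i, DecidablePred (q i)]
    (hpq : ∀ e, p e ↔ q e.1.1 e.2.1) :
    ∑ e ∈ univ.filter p, wt I V C e =
      ∑ i ∈ I, (((pathsF V C i).filter (q i)).card : ℝ) / (pathsF V C i).card := by
  rw [Finset.sum_filter]
  have h1 : ∑ e : EE I V C, (if p e then wt I V C e else 0) =
      ∑ i : {i // i ∈ I}, ∑ x : {x // x ∈ pathsF V C i.1},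
        (if q i.1 x.1 then (1 : ℝ) / ((pathsF V C i.1).card : ℝ) else 0) := by
    rw [Fintype.sum_sigma]
    apply Finset.sum_congr rfl
    intro i _
    apply Finset.sum_congr rfl
    intro x _
    by_cases h : q i.1 x.1
    · rw [if_pos ((hpq ⟨i, x⟩).2 h), if_pos h]; rfl
    · rw [if_neg (fun h' => h ((hpq ⟨i, x⟩).1 h')), if_neg h]
  rw [h1]
  have h2 : ∀ i : Idx G, ∑ x : {x // x ∈ pathsF V C i},
      (if q i x.1 then (1 : ℝ) / ((pathsF V C i).card : ℝ) else 0) =
      (((pathsF V C i).filter (q i)).card : ℝ) / (pathsF V C i).card := by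
    intro i
    rw [Finset.sum_coe_sort (pathsF V C i)
      (fun x => if q i x then (1 : ℝ) / ((pathsF V C i).card : ℝ) else 0)]
    rw [← Finset.sum_filter, Finset.sum_const, nsmul_eq_mul]
    ring
  simp only [h2]
  exact Finset.sum_coe_sort I
    (fun i => (((pathsF V C i).filter (q i)).card : ℝ) / (pathsF V C i).card)

/-- extension of a function on the vertices -/
noncomputable def extV (y : XX V C → ℝ) (g : G) : ℝ :=
  if h : g ∈ V then y (Sum.inl ⟨g, h⟩) else 0
noncomputable def extC (y : XX V C → ℝ) (g : G) : ℝ :=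
  if h : g ∈ C then y (Sum.inr ⟨g, h⟩) else 0

theorem sum_elN (e : EE I V C) (y : XX V C → ℝ) : ∑ x ∈ elN I V C e, y x =
    ∑ j, extV V C y (e.2.1 j) +
      ((pcols e.1.1.1 (List.ofFn e.2.1) e.1.1.2.1).map (extC V C y)).sum := by
  classical
  obtain ⟨h1, h2, h3, h4⟩ := mem_paths V C e.2.2
  unfold elN
  rw [Finset.sum_filter, Fintype.sum_sum_type]
  congr 1
  · have e1 : ∀ v : {v // v ∈ V}, (if inEl I V C e (Sum.inl v) then y (Sum.inl v) else 0) =
        (if ∃ j, e.2.1 j = v.1 then extV V C y v.1 else 0) := by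
      intro v
      have : extV V C y v.1 = y (Sum.inl v) := by simp [extV]
      rw [this]; exact if_congr Iff.rfl rfl rfl
    simp only [e1]
    rw [Finset.sum_coe_sort V (fun v => if ∃ j, e.2.1 j = v then extV V C y v else 0),
      ← Finset.sum_filter]
    have e2 : V.filter (fun v => ∃ j, e.2.1 j = v) = univ.image e.2.1 := by
      ext v
      simp only [mem_filter, mem_image, mem_univ, true_and]
      constructor
      · exact fun h => h.2
      · rintro ⟨j, rfl⟩; exact ⟨h2 j, j, rfl⟩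
    rw [e2, Finset.sum_image (fun a _ b _ h => h1 h)]
  · have e1 : ∀ v : {v // v ∈ C}, (if inEl I V C e (Sum.inr v) then y (Sum.inr v) else 0) =
        (if v.1 ∈ pcols e.1.1.1 (List.ofFn e.2.1) e.1.1.2.1 then extC V C y v.1 else 0) := by
      intro v
      have : extC V C y v.1 = y (Sum.inr v) := by simp [extC]
      rw [this]; exact if_congr Iff.rfl rfl rfl
    simp only [e1]
    rw [Finset.sum_coe_sort C (fun v => if v ∈ pcols e.1.1.1 (List.ofFn e.2.1) e.1.1.2.1
      then extC V C y v else 0), ← Finset.sum_filter]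
    have e2 : C.filter (fun v => v ∈ pcols e.1.1.1 (List.ofFn e.2.1) e.1.1.2.1) =
        ⟨pcols e.1.1.1 (List.ofFn e.2.1) e.1.1.2.1, h3⟩ := by
      ext v
      simp only [mem_filter, Finset.mem_mk]
      exact ⟨fun h => h.2, fun h => ⟨h4 v h, h⟩⟩
    rw [e2]; rfl

theorem sum_elL (e : EE I V C) (y : {i // i ∈ I} ⊕ XX V C → ℝ) : ∑ x ∈ elL I V C e, y x =
    y (Sum.inl e.1) + (∑ j, extV V C (fun x => y (Sum.inr x)) (e.2.1 j) +
      ((pcols e.1.1.1 (List.ofFn e.2.1) e.1.1.2.1).map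
        (extC V C (fun x => y (Sum.inr x)))).sum) := by
  classical
  unfold elL
  rw [Finset.sum_insert (by simp), Finset.sum_map, ← sum_elN]
  rfl

theorem card_elN (e : EE I V C) (hl : e.1.1.2.2 ≤ 5) : (elN I V C e).card ≤ 9 := by
  obtain ⟨h1, h2, h3, h4⟩ := mem_paths V C e.2.2
  have h := sum_elN I V C e (fun _ => 1)
  have e1 : ∑ j, extV V C (fun _ => (1 : ℝ)) (e.2.1 j) = ((e.1.1.2.2 - 1 : ℕ) : ℝ) := by
    have : ∀ j, extV V C (fun _ => (1 : ℝ)) (e.2.1 j) = 1 := fun j => by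
      simp [extV, h2 j]
    simp [this]
  have e2 : ((pcols e.1.1.1 (List.ofFn e.2.1) e.1.1.2.1).map
      (extC V C (fun _ => (1 : ℝ)))).sum = ((e.1.1.2.2 - 1 : ℕ) : ℝ) + 1 := by
    have : (pcols e.1.1.1 (List.ofFn e.2.1) e.1.1.2.1).map (extC V C (fun _ => (1 : ℝ))) =
        (pcols e.1.1.1 (List.ofFn e.2.1) e.1.1.2.1).map (fun _ => (1 : ℝ)) := by
      apply Multiset.map_congr rfl
      intro c hc
      simp [extC, h4 c hc]
    rw [this]
    simp [card_pcols, add_comm]
  rw [e1, e2] at h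
  simp only [sum_const, nsmul_eq_mul, mul_one] at h
  have h5 : (elN I V C e).card = (e.1.1.2.2 - 1) + ((e.1.1.2.2 - 1) + 1) := by
    exact_mod_cast h
  omega

theorem sum_deg (h : ∀ i ∈ I, 0 < (pathsF V C i).card) (hl : ∀ i ∈ I, 1 ≤ i.2.2) :
    ∑ v ∈ V, (∑ i ∈ I, (((pathsF V C i).filter fun x => ∃ j, x j = v).card : ℝ) /
      (pathsF V C i).card) = ∑ i ∈ I, ((i.2.2 - 1 : ℕ) : ℝ) ∧
    ∑ c ∈ C, (∑ i ∈ I, (((pathsF V C i).filter fun x =>
      c ∈ pcols i.1 (List.ofFn x) i.2.1).card : ℝ) / (pathsF V C i).card) =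
      ∑ i ∈ I, ((i.2.2 : ℕ) : ℝ) := by
  constructor
  · rw [Finset.sum_comm]
    apply Finset.sum_congr rfl
    intro i hi
    rw [← Finset.sum_div]
    have hP : ((pathsF V C i).card : ℝ) ≠ 0 := by
      exact_mod_cast (h i hi).ne'
    rw [div_eq_iff hP]
    have h1 : ∑ v ∈ V, ((pathsF V C i).filter fun x => ∃ j, x j = v).card =
        ∑ x ∈ pathsF V C i, (V.filter fun v => ∃ j, x j = v).card := by
      simp only [Finset.card_filter]
      rw [Finset.sum_comm]
    have h2 : ∀ x ∈ pathsF V C i, (V.filter fun v => ∃ j, x j = v).card = i.2.2 - 1 := by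
      intro x hx
      obtain ⟨h1, h2, h3, h4⟩ := mem_paths V C hx
      have e2 : V.filter (fun v => ∃ j, x j = v) = univ.image x := by
        ext v
        simp only [mem_filter, mem_image, mem_univ, true_and]
        constructor
        · exact fun h => h.2
        · rintro ⟨j, rfl⟩; exact ⟨h2 j, j, rfl⟩
      rw [e2, Finset.card_image_of_injective _ h1]
      simp
    rw [Finset.sum_congr rfl h2] at h1
    rw [← Nat.cast_sum, h1]
    simp [mul_comm]
  · rw [Finset.sum_comm]
    apply Finset.sum_congr rfl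
    intro i hi
    rw [← Finset.sum_div]
    have hP : ((pathsF V C i).card : ℝ) ≠ 0 := by
      exact_mod_cast (h i hi).ne'
    rw [div_eq_iff hP]
    have h1 : ∑ c ∈ C, ((pathsF V C i).filter fun x =>
        c ∈ pcols i.1 (List.ofFn x) i.2.1).card =
        ∑ x ∈ pathsF V C i, (C.filter fun c => c ∈ pcols i.1 (List.ofFn x) i.2.1).card := by
      simp only [Finset.card_filter]
      rw [Finset.sum_comm]
    have h2 : ∀ x ∈ pathsF V C i, (C.filter fun c =>
        c ∈ pcols i.1 (List.ofFn x) i.2.1).card = i.2.2 := by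
      intro x hx
      obtain ⟨h1, h2, h3, h4⟩ := mem_paths V C hx
      have e2 : C.filter (fun v => v ∈ pcols i.1 (List.ofFn x) i.2.1) =
          ⟨pcols i.1 (List.ofFn x) i.2.1, h3⟩ := by
        ext v
        simp only [mem_filter, Finset.mem_mk]
        exact ⟨fun h => h.2, fun h => ⟨h4 v h, h⟩⟩
      rw [e2, Finset.card_mk, card_pcols, List.length_ofFn]
      have := hl i hi
      omega
    rw [Finset.sum_congr rfl h2] at h1
    rw [← Nat.cast_sum, h1]
    simp [mul_comm]

/-- nodup sums -/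
theorem nodup_sum {α β : Type*} (F : Finset α) (f : α → Multiset β)
    (h1 : ∀ a ∈ F, (f a).Nodup) (h2 : ∀ a ∈ F, ∀ b ∈ F, a ≠ b → ∀ x ∈ f a, x ∉ f b) :
    (∑ a ∈ F, f a).Nodup := by
  classical
  induction F using Finset.induction_on with
  | empty => simp
  | insert a F ha ih =>
    rw [Finset.sum_insert ha, Multiset.nodup_add]
    refine ⟨h1 a (by simp), ih (fun b hb => h1 b (by simp [hb]))
      (fun b hb c hc => h2 b (by simp [hb]) c (by simp [hc])), ?_⟩
    rw [Multiset.disjoint_left]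
    intro x hx hx'
    obtain ⟨b, hb, hxb⟩ := Multiset.mem_sum.1 hx'
    exact h2 a (by simp) b (by simp [hb]) (fun h => ha (h ▸ hb)) x hx hxb

theorem ms_sum (F : Finset (EE I V C)) (hl : ∀ i ∈ I, 1 ≤ i.2.2) :
    MS (∑ e ∈ F, {e.1.1}) (∑ e ∈ F, (List.ofFn e.2.1 : Multiset G))
      (∑ e ∈ F, pcols e.1.1.1 (List.ofFn e.2.1) e.1.1.2.1) := by
  classical
  induction F using Finset.induction_on with
  | empty => simpa using MS.zero
  | insert a F ha ih =>
    rw [Finset.sum_insert ha, Finset.sum_insert ha, Finset.sum_insert ha]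
    refine MS.add ?_ ih
    have h := MS.single a.1.1.1 a.1.1.2.1 (List.ofFn a.2.1)
    rw [List.length_ofFn] at h
    have e : a.1.1.2.2 - 1 + 1 = a.1.1.2.2 := by
      have := hl a.1.1 a.1.2
      omega
    rw [e] at h
    exact h

/-- fractional matching -/
theorem frac (hLP : Stmt_LP) (δ K : ℝ) (hδK : δ * K ≤ 1) (hK : 0 ≤ K) (hδ : 0 ≤ δ)
    (hcV : ∑ i ∈ I, (i.2.2 - 1) = V.card) (hcC : ∑ i ∈ I, i.2.2 = C.card)
    (hl : ∀ i ∈ I, 1 ≤ i.2.2)
    (hP : ∀ i ∈ I, 0 < (pathsF V C i).card)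
    (hdV : ∀ v ∈ V, |(∑ i ∈ I, (((pathsF V C i).filter fun x => ∃ j, x j = v).card : ℝ) /
      (pathsF V C i).card) - 1| ≤ δ)
    (hdC : ∀ c ∈ C, |(∑ i ∈ I, (((pathsF V C i).filter fun x =>
      c ∈ pcols i.1 (List.ofFn x) i.2.1).card : ℝ) / (pathsF V C i).card) - 1| ≤ δ)
    (hI : ∀ (yI : Idx G → ℝ) (yV yC : G → ℝ), ∃ κV κC : ℝ,
      ∑ v ∈ V, |yV v - κV| + ∑ c ∈ C, |yC c - κC| ≤
      K * ∑ i ∈ I, (∑ x ∈ pathsF V C i, |yI i + ∑ j, yV (x j) +
      ((pcols i.1 (List.ofFn x) i.2.1).map yC).sum|) / (pathsF V C i).card) :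
    ∃ w' : EE I V C → ℝ, (∀ e, 0 ≤ w' e ∧ w' e ≤ 2 * wt I V C e) ∧
      (∀ [DecidableEq ({i // i ∈ I} ⊕ XX V C)], ∀ x : {i // i ∈ I} ⊕ XX V C,
        ∑ e ∈ univ.filter (fun e => x ∈ elL I V C e), w' e = 1) := by
  classical
  have hw0 : ∀ e, 0 ≤ wt I V C e := fun e => by unfold wt; positivity
  have key := hLP ({i // i ∈ I} ⊕ XX V C) (EE I V C) (elL I V C) (wt I V C) hw0
  have hmain : ∀ y : {i // i ∈ I} ⊕ XX V C → ℝ,
      ∑ x, y x * (1 - ∑ e ∈ univ.filter (fun e => x ∈ elL I V C e), wt I V C e) ≤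
      ∑ e, wt I V C e * |∑ x ∈ elL I V C e, y x| := by
    intro y
    set yX : XX V C → ℝ := fun x => y (Sum.inr x) with hyX
    set yI : Idx G → ℝ := fun i => if h : i ∈ I then y (Sum.inl ⟨i, h⟩) else 0 with hyI
    obtain ⟨κV, κC, hκ⟩ := hI yI (extV V C yX) (extC V C yX)
    obtain ⟨hs1, hs2⟩ := sum_deg I V C hP hl
    -- degrees
    set dV : G → ℝ := fun v => ∑ i ∈ I, (((pathsF V C i).filter fun x => ∃ j, x j = v).card : ℝ) /
      (pathsF V C i).card with hdVd
    set dC : G → ℝ := fun c => ∑ i ∈ I, (((pathsF V C i).filter fun x =>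
      c ∈ pcols i.1 (List.ofFn x) i.2.1).card : ℝ) / (pathsF V C i).card with hdCd
    have g1 : ∀ i : {i // i ∈ I}, ∑ e ∈ univ.filter (fun e => Sum.inl i ∈ elL I V C e),
        wt I V C e = 1 := by
      intro i
      rw [sumE I V C (fun e => Sum.inl i ∈ elL I V C e) (fun i' _ => i' = i.1) (by
        intro e
        rw [mem_elL_inl, Subtype.ext_iff])]
      rw [Finset.sum_eq_single_of_mem i.1 i.2]
      · rw [Finset.filter_true_of_mem (fun _ _ => rfl)]
        exact div_self (by exact_mod_cast (hP i.1 i.2).ne')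
      · intro b _ hb
        rw [Finset.filter_false_of_mem (fun _ _ => hb)]
        simp
    have g2 : ∀ v : {v // v ∈ V}, ∑ e ∈ univ.filter (fun e =>
        Sum.inr (Sum.inl v) ∈ elL I V C e), wt I V C e = dV v.1 := by
      intro v
      rw [sumE I V C (fun e => Sum.inr (Sum.inl v) ∈ elL I V C e)
        (fun i' x => ∃ j, x j = v.1) (by
        intro e
        rw [mem_elL_inr]; rfl)]
    have g3 : ∀ v : {v // v ∈ C}, ∑ e ∈ univ.filter (fun e =>
        Sum.inr (Sum.inr v) ∈ elL I V C e), wt I V C e = dC v.1 := by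
      intro v
      rw [sumE I V C (fun e => Sum.inr (Sum.inr v) ∈ elL I V C e)
        (fun i x => v.1 ∈ pcols i.1 (List.ofFn x) i.2.1) (by
        intro e
        rw [mem_elL_inr]; rfl)]
    rw [Fintype.sum_sum_type, Fintype.sum_sum_type]
    simp only [g1, g2, g3, sub_self, mul_zero, Finset.sum_const_zero, zero_add]
    have t1 : ∑ v : {v // v ∈ V}, y (Sum.inr (Sum.inl v)) * (1 - dV v.1) =
        ∑ v ∈ V, extV V C yX v * (1 - dV v) := by
      rw [← Finset.sum_coe_sort V (fun v => extV V C yX v * (1 - dV v))]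
      apply Finset.sum_congr rfl
      intro v _
      simp [extV, hyX]
    have t2 : ∑ v : {v // v ∈ C}, y (Sum.inr (Sum.inr v)) * (1 - dC v.1) =
        ∑ v ∈ C, extC V C yX v * (1 - dC v) := by
      rw [← Finset.sum_coe_sort C (fun v => extC V C yX v * (1 - dC v))]
      apply Finset.sum_congr rfl
      intro v _
      simp [extC, hyX]
    rw [t1, t2]
    have z1 : ∑ v ∈ V, (1 - dV v) = 0 := by
      rw [Finset.sum_sub_distrib, hs1, ← Nat.cast_sum, hcV]; simp
    have z2 : ∑ v ∈ C, (1 - dC v) = 0 := by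
      rw [Finset.sum_sub_distrib, hs2, ← Nat.cast_sum, hcC]; simp
    have u1 : ∑ v ∈ V, extV V C yX v * (1 - dV v) ≤ δ * ∑ v ∈ V, |extV V C yX v - κV| := by
      have : ∑ v ∈ V, extV V C yX v * (1 - dV v) =
          ∑ v ∈ V, (extV V C yX v - κV) * (1 - dV v) := by
        have : ∑ v ∈ V, (extV V C yX v - κV) * (1 - dV v) =
            ∑ v ∈ V, extV V C yX v * (1 - dV v) - κV * ∑ v ∈ V, (1 - dV v) := by
          rw [Finset.mul_sum, ← Finset.sum_sub_distrib]
          exact Finset.sum_congr rfl fun _ _ => by ring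
        rw [this, z1]; ring
      rw [this, Finset.mul_sum]
      apply Finset.sum_le_sum
      intro v hv
      calc (extV V C yX v - κV) * (1 - dV v) ≤ |(extV V C yX v - κV) * (1 - dV v)| :=
            le_abs_self _
        _ = |1 - dV v| * |extV V C yX v - κV| := by rw [abs_mul, mul_comm]
        _ ≤ δ * |extV V C yX v - κV| := by
          apply mul_le_mul_of_nonneg_right _ (abs_nonneg _)
          rw [abs_sub_comm]; exact hdV v hv
    have u2 : ∑ v ∈ C, extC V C yX v * (1 - dC v) ≤ δ * ∑ v ∈ C, |extC V C yX v - κC| := by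
      have : ∑ v ∈ C, extC V C yX v * (1 - dC v) =
          ∑ v ∈ C, (extC V C yX v - κC) * (1 - dC v) := by
        have : ∑ v ∈ C, (extC V C yX v - κC) * (1 - dC v) =
            ∑ v ∈ C, extC V C yX v * (1 - dC v) - κC * ∑ v ∈ C, (1 - dC v) := by
          rw [Finset.mul_sum, ← Finset.sum_sub_distrib]
          exact Finset.sum_congr rfl fun _ _ => by ring
        rw [this, z2]; ring
      rw [this, Finset.mul_sum]
      apply Finset.sum_le_sum
      intro v hv
      calc (extC V C yX v - κC) * (1 - dC v) ≤ |(extC V C yX v - κC) * (1 - dC v)| :=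
            le_abs_self _
        _ = |1 - dC v| * |extC V C yX v - κC| := by rw [abs_mul, mul_comm]
        _ ≤ δ * |extC V C yX v - κC| := by
          apply mul_le_mul_of_nonneg_right _ (abs_nonneg _)
          rw [abs_sub_comm]; exact hdC v hv
    have r1 : ∑ e, wt I V C e * |∑ x ∈ elL I V C e, y x| =
        ∑ i ∈ I, (∑ x ∈ pathsF V C i, |yI i + ∑ j, extV V C yX (x j) +
        ((pcols i.1 (List.ofFn x) i.2.1).map (extC V C yX)).sum|) /
        (pathsF V C i).card := by
      rw [Fintype.sum_sigma]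
      rw [← Finset.sum_coe_sort I (fun i => (∑ x ∈ pathsF V C i, |yI i +
        ∑ j, extV V C yX (x j) + ((pcols i.1 (List.ofFn x) i.2.1).map (extC V C yX)).sum|) /
        (pathsF V C i).card)]
      apply Finset.sum_congr rfl
      intro i _
      rw [← Finset.sum_coe_sort (pathsF V C i.1) (fun x => |yI i.1 +
        ∑ j, extV V C yX (x j) + ((pcols i.1.1 (List.ofFn x) i.1.2.1).map (extC V C yX)).sum|),
        Finset.sum_div]
      apply Finset.sum_congr rfl
      intro x _
      rw [sum_elL]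
      have : yI i.1 = y (Sum.inl i) := by simp [hyI]
      rw [this, add_assoc]
      unfold wt
      rw [div_mul_eq_mul_div, one_mul]
    rw [r1]
    set S := ∑ i ∈ I, (∑ x ∈ pathsF V C i, |yI i + ∑ j, extV V C yX (x j) +
        ((pcols i.1 (List.ofFn x) i.2.1).map (extC V C yX)).sum|) /
        (pathsF V C i).card with hS
    have hS0 : 0 ≤ S := by
      rw [hS]
      apply Finset.sum_nonneg
      intro i _
      exact div_nonneg (Finset.sum_nonneg fun _ _ => abs_nonneg _) (Nat.cast_nonneg _)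
    calc _ ≤ δ * ∑ v ∈ V, |extV V C yX v - κV| + δ * ∑ v ∈ C, |extC V C yX v - κC| :=
          add_le_add u1 u2
      _ = δ * (∑ v ∈ V, |extV V C yX v - κV| + ∑ v ∈ C, |extC V C yX v - κC|) := by ring
      _ ≤ δ * (K * S) := mul_le_mul_of_nonneg_left hκ hδ
      _ = δ * K * S := by ring
      _ ≤ 1 * S := mul_le_mul_of_nonneg_right hδK hS0
      _ = S := one_mul S
  obtain ⟨w', h1, h2⟩ := key (by intro y; convert hmain y)
  refine ⟨w', h1, ?_⟩
  intro inst x
  rw [← h2 x]
  exact Finset.sum_congr (by ext e; simp) fun _ _ => rfl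

end nib

theorem stmt_NIB (hDEG : Stmt_DEG) (hCOD : Stmt_COD) (hINEQ : Stmt_INEQ) (hLP : Stmt_LP)
    (hNB : Stmt_NB) : Stmt_NIB := by
  classical
  obtain ⟨K0, ε0, N0, hε0, hI⟩ := hINEQ
  set K : ℝ := max K0 1 with hK
  have hK1 : 1 ≤ K := le_max_right _ _
  have hKpos : 0 < K := by linarith
  obtain ⟨ε1, N1, hε1, hD⟩ := hDEG (1 / K) (by positivity)
  obtain ⟨M0, hCOD⟩ := hCOD
  set M : ℝ := max M0 1 with hM
  have hM1 : 1 ≤ M := le_max_right _ _
  refine ⟨min ε0 ε1, lt_min hε0 hε1, ?_⟩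
  intro η hη
  obtain ⟨N2, hNB⟩ := hNB 9 (2 * M) η hη
  refine ⟨max (max N0 N1) N2, ?_⟩
  intro G _ _ _ I V C hN hNH
  have hN0 : N0 ≤ Fintype.card G := le_trans (le_trans (le_max_left _ _) (le_max_left _ _)) hN
  have hN1 : N1 ≤ Fintype.card G := le_trans (le_trans (le_max_right _ _) (le_max_left _ _)) hN
  have hN2 : N2 ≤ Fintype.card G := le_trans (le_max_right _ _) hN
  have hnpos : 0 < Fintype.card G := Fintype.card_pos
  set n : ℝ := (Fintype.card G : ℝ) with hn
  have hn0 : 0 < n := by rw [hn]; exact_mod_cast hnpos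
  have hmono : ∀ ε, min ε0 ε1 ≤ ε → NH ε I V C := by
    intro ε hε
    have h1 : min ε0 ε1 * n ≤ ε * n := mul_le_mul_of_nonneg_right hε hn0.le
    have h2 : min ε0 ε1 * n ^ 2 ≤ ε * n ^ 2 := mul_le_mul_of_nonneg_right hε (by positivity)
    exact ⟨hNH.len, hNH.src, hNH.tgt, hNH.cardV, hNH.cardC, hNH.one, hNH.big,
      hNH.full.trans h1, fun c hc => (hNH.q2s c hc).trans h1, fun c hc => (hNH.q2t c hc).trans h1,
      fun c hc => (hNH.q2v c hc).trans h1, hNH.q3,
      fun c hc => ⟨(hNH.q5 c hc).1.trans h2, (hNH.q5 c hc).2.trans h2⟩⟩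
  have hNH0 := hmono ε0 (min_le_left _ _)
  have hNH1 := hmono ε1 (min_le_right _ _)
  obtain ⟨hD1, hD2, hD3⟩ := hD G I V C hN1 hNH1
  have hl3 : ∀ i ∈ I, 3 ≤ i.2.2 := fun i hi => by rcases hNH.len i hi with h | h | h <;> omega
  have hl5 : ∀ i ∈ I, i.2.2 ≤ 5 := fun i hi => by rcases hNH.len i hi with h | h | h <;> omega
  have hl1 : ∀ i ∈ I, 1 ≤ i.2.2 := fun i hi => by have := hl3 i hi; omega
  have hVI : 2 * I.card ≤ V.card := by
    rw [← hNH.cardV]
    calc 2 * I.card = ∑ i ∈ I, 2 := by simp [mul_comm]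
      _ ≤ _ := Finset.sum_le_sum fun i hi => by have := hl3 i hi; omega
  have hbig := hNH.big
  have hVpos : 0 < V.card := by omega
  have hV6 : (Fintype.card G : ℝ) ≤ 6 * V.card := by
    have : Fintype.card G ≤ 6 * V.card := by omega
    exact_mod_cast this
  have hP : ∀ i ∈ I, 0 < (pathsF V C i).card := by
    intro i hi
    have h1 := hD1 i hi
    have h2 : (0 : ℝ) < (V.card : ℝ) ^ (i.2.2 - 1) := by
      have : (0 : ℝ) < V.card := by exact_mod_cast hVpos
      positivity
    have h3 : (0 : ℝ) < 2 * (pathsF V C i).card := lt_of_lt_of_le h2 h1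
    have h4 : (0 : ℝ) < (pathsF V C i).card := by linarith
    exact_mod_cast h4
  obtain ⟨c1, c2, c3, c4, c5⟩ := hCOD G I V C hNH.len hNH.src hNH.tgt hV6 hD1
  have hMn : M0 / n ≤ M / n := div_le_div_of_nonneg_right (le_max_left _ _) hn0.le
  obtain ⟨w', hw1, hw2⟩ := frac I V C hLP (1 / K) K
    (by rw [one_div, inv_mul_cancel₀ hKpos.ne']) hKpos.le (by positivity)
    hNH.cardV hNH.cardC hl1 hP hD2 hD3 (by
      intro yI yV yC
      obtain ⟨κV, κC, h⟩ := hI G I V C hN0 hNH0 yI yV yC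
      refine ⟨κV, κC, h.trans ?_⟩
      apply mul_le_mul_of_nonneg_right (le_max_left _ _)
      apply Finset.sum_nonneg
      intro i _
      exact div_nonneg (Finset.sum_nonneg fun _ _ => abs_nonneg _) (Nat.cast_nonneg _))
  -- bound of sums of w'
  have hww : ∀ (p : EE I V C → Prop) [DecidablePred p], ∑ e ∈ univ.filter p, w' e ≤
      2 * ∑ e ∈ univ.filter p, wt I V C e := by
    intro p _
    rw [Finset.mul_sum]
    exact Finset.sum_le_sum fun e _ => (hw1 e).2
  have hfin : ∀ (p : EE I V C → Prop) [DecidablePred p]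
      (q : (i : Idx G) → (Fin (i.2.2 - 1) → G) → Prop) [∀ i, DecidablePred (q i)],
      (∀ e, p e ↔ q e.1.1 e.2.1) →
      ∑ i ∈ I, (((pathsF V C i).filter (q i)).card : ℝ) / (pathsF V C i).card ≤ M0 / n →
      ∑ e ∈ univ.filter p, w' e ≤ 2 * M / n := by
    intro p _ q _ hpq h
    calc _ ≤ 2 * ∑ e ∈ univ.filter p, wt I V C e := hww p
      _ = 2 * ∑ i ∈ I, (((pathsF V C i).filter (q i)).card : ℝ) / (pathsF V C i).card := by
          rw [sumE I V C p q hpq]
      _ ≤ 2 * (M0 / n) := by linarith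
      _ ≤ 2 * (M / n) := by linarith
      _ = 2 * M / n := by ring
  have hone : ∀ (i0 : {i // i ∈ I}) (q : (i : Idx G) → (Fin (i.2.2 - 1) → G) → Prop)
      [∀ i, DecidablePred (q i)],
      (((pathsF V C i0.1).filter (q i0.1)).card : ℝ) / (pathsF V C i0.1).card ≤ M0 / n →
      ∑ i ∈ I, (((pathsF V C i).filter (fun x => i = i0.1 ∧ q i x)).card : ℝ) /
        (pathsF V C i).card ≤ M0 / n := by
    intro i0 q _ h
    rw [Finset.sum_eq_single_of_mem i0.1 i0.2]
    · have : (pathsF V C i0.1).filter (fun x => i0.1 = i0.1 ∧ q i0.1 x) =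
          (pathsF V C i0.1).filter (q i0.1) := by
        ext x; simp
      rw [this]; exact h
    · intro b _ hb
      rw [Finset.filter_false_of_mem (fun x _ h => hb h.1)]
      simp
  have hIn : (I.card : ℝ) ≤ n := by
    have : I.card ≤ Fintype.card G := by
      have := Finset.card_le_card_of_injOn (s := I) (t := (univ : Finset G))
        (fun i : Idx G => i.1) (fun _ _ => by simp) hNH.src
      simpa using this
    rw [hn]; exact_mod_cast this
  obtain ⟨F, hF1, hF2⟩ := hNB (Fintype.card G) hN2 {i // i ∈ I} (XX V C) (EE I V C)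
    (fun e => e.1) (elN I V C) w' (by
      rw [Fintype.card_coe]
      calc (I.card : ℝ) ≤ n := hIn
        _ ≤ 2 * M * n := by nlinarith) (by
      rw [Fintype.card_sum, Fintype.card_coe, Fintype.card_coe]
      have h1 : (V.card : ℝ) ≤ n := by rw [hn]; exact_mod_cast Finset.card_le_univ V
      have h2 : (C.card : ℝ) ≤ n := by rw [hn]; exact_mod_cast Finset.card_le_univ C
      push_cast
      calc (V.card : ℝ) + C.card ≤ 2 * n := by linarith
        _ ≤ 2 * M * n := by nlinarith) (fun e => (hw1 e).1)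
    (fun e => card_elN I V C e (hl5 _ e.1.2)) (by
      intro i
      rw [← hw2 (Sum.inl i)]
      apply Finset.sum_congr _ fun _ _ => rfl
      ext e
      simp only [mem_filter, mem_univ, true_and]
      rw [mem_elL_inl]) (by
      intro x
      rw [← hw2 (Sum.inr x)]
      apply Finset.sum_congr _ fun _ _ => rfl
      ext e
      simp only [mem_filter, mem_univ, true_and]
      rw [mem_elL_inr, mem_elN]) (by
      intro i0 x
      rcases x with v | c
      · refine hfin _ (fun i x => i = i0.1 ∧ ∃ j, x j = v.1) (fun e => ?_)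
          (hone i0 (fun i x => ∃ j, x j = v.1) (c1 i0.1 i0.2 v.1))
        rw [mem_elN, Subtype.ext_iff]; rfl
      · refine hfin _ (fun i x => i = i0.1 ∧ c.1 ∈ pcols i.1 (List.ofFn x) i.2.1) (fun e => ?_)
          (hone i0 (fun i x => c.1 ∈ pcols i.1 (List.ofFn x) i.2.1) (c2 i0.1 i0.2 c.1))
        rw [mem_elN, Subtype.ext_iff]; rfl) (by
      intro x x' hxx
      rcases x with v | c
      · rcases x' with v' | c'
        · refine hfin _ (fun i x => (∃ j, x j = v.1) ∧ ∃ j, x j = v'.1) (fun e => ?_)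
            (c3 v.1 v'.1 (fun h => hxx (by rw [Subtype.ext h])))
          rw [mem_elN, mem_elN]; rfl
        · refine hfin _ (fun i x => (∃ j, x j = v.1) ∧
            c'.1 ∈ pcols i.1 (List.ofFn x) i.2.1) (fun e => ?_) (c4 v.1 c'.1)
          rw [mem_elN, mem_elN]; rfl
      · rcases x' with v' | c'
        · refine hfin _ (fun i x => (∃ j, x j = v'.1) ∧
            c.1 ∈ pcols i.1 (List.ofFn x) i.2.1) (fun e => ?_) (c4 v'.1 c.1)
          rw [mem_elN, mem_elN, and_comm]; rfl
        · refine hfin _ (fun i x => c.1 ∈ pcols i.1 (List.ofFn x) i.2.1 ∧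
            c'.1 ∈ pcols i.1 (List.ofFn x) i.2.1) (fun e => ?_)
            (c5 c.1 c'.1 (fun h => hxx (by rw [Subtype.ext h])))
          rw [mem_elN, mem_elN]; rfl)
  have hms := ms_sum I V C F hl1
  have nI : (∑ e ∈ F, ({e.1.1} : Multiset (Idx G))).Nodup := by
    apply nodup_sum
    · intro e _; simp
    · intro e he e' he' hne x hx hx'
      rw [Multiset.mem_singleton] at hx hx'
      exact (hF1 e he e' he' hne).1 (Subtype.ext (by rw [← hx, ← hx']))
  have nV : (∑ e ∈ F, (List.ofFn e.2.1 : Multiset G)).Nodup := by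
    apply nodup_sum
    · intro e _
      obtain ⟨h1, _⟩ := mem_paths V C e.2.2
      rw [Multiset.coe_nodup]
      exact List.nodup_ofFn.2 h1
    · intro e he e' he' hne x hx hx'
      have hd := (hF1 e he e' he' hne).2
      rw [Finset.disjoint_left] at hd
      rw [Multiset.mem_coe, List.mem_ofFn] at hx hx'
      have hxV : x ∈ V := by
        obtain ⟨j, rfl⟩ := hx
        exact (mem_paths V C e.2.2).2.1 j
      exact hd (a := Sum.inl ⟨x, hxV⟩) ((mem_elN I V C e _).2 hx) ((mem_elN I V C e' _).2 hx')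
  have nC : (∑ e ∈ F, pcols e.1.1.1 (List.ofFn e.2.1) e.1.1.2.1).Nodup := by
    apply nodup_sum
    · intro e _
      exact (mem_paths V C e.2.2).2.2.1
    · intro e he e' he' hne x hx hx'
      have hd := (hF1 e he e' he' hne).2
      rw [Finset.disjoint_left] at hd
      have hxC : x ∈ C := (mem_paths V C e.2.2).2.2.2 x hx
      exact hd (a := Sum.inr ⟨x, hxC⟩) ((mem_elN I V C e _).2 hx) ((mem_elN I V C e' _).2 hx')
  refine ⟨⟨_, nI⟩, ⟨_, nV⟩, ⟨_, nC⟩, ?_, ?_, ?_, hms, ?_⟩
  · intro i hi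
    rw [Finset.mem_mk] at hi
    obtain ⟨e, _, he⟩ := Multiset.mem_sum.1 hi
    rw [Multiset.mem_singleton] at he
    rw [he]; exact e.1.2
  · intro v hv
    rw [Finset.mem_mk] at hv
    obtain ⟨e, _, he⟩ := Multiset.mem_sum.1 hv
    rw [Multiset.mem_coe, List.mem_ofFn] at he
    obtain ⟨j, rfl⟩ := he
    exact (mem_paths V C e.2.2).2.1 j
  · intro c hc
    rw [Finset.mem_mk] at hc
    obtain ⟨e, _, he⟩ := Multiset.mem_sum.1 hc
    exact (mem_paths V C e.2.2).2.2.2 c he
  · have hsub : (⟨∑ e ∈ F, ({e.1.1} : Multiset (Idx G)), nI⟩ : Finset (Idx G)) ⊆ I := by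
      intro i hi
      rw [Finset.mem_mk] at hi
      obtain ⟨e, _, he⟩ := Multiset.mem_sum.1 hi
      rw [Multiset.mem_singleton] at he
      rw [he]; exact e.1.2
    have hc : (⟨∑ e ∈ F, ({e.1.1} : Multiset (Idx G)), nI⟩ : Finset (Idx G)).card = F.card := by
      rw [Finset.card_mk]
      simp
    have h1 := Finset.card_sdiff_add_card_eq_card hsub
    rw [hc] at h1
    have h2 : (((I \ (⟨∑ e ∈ F, ({e.1.1} : Multiset (Idx G)), nI⟩ : Finset (Idx G))).card : ℝ)) +
        F.card = I.card := by exact_mod_cast h1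
    rw [Fintype.card_coe] at hF2
    linarith

end Pool.OM.H59N
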