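import Pool.Agent.Work.MP_8d2cba_co_h18.Interface3

/-! MP_8d2cba_co: block PREP (helper59). -/

set_option autoImplicit false
set_option linter.unusedSectionVars false

namespace Pool.OM.H59P
open Finset Pool.OM

variable {G : Type} [Group G] [Fintype G] [DecidableEq G]

theorem rt_inv (a : G) : rt a⁻¹ = rt a := by
  unfold rt
  refine Finset.card_bij' (fun x _ => x⁻¹) (fun x _ => x⁻¹) ?_ ?_ ?_ ?_
  · intro x hx
    simp only [mem_filter, mem_univ, true_and] at hx ⊢
    rw [← mul_inv_rev, hx, inv_inv]
  · intro x hx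
    simp only [mem_filter, mem_univ, true_and] at hx ⊢
    rw [← mul_inv_rev, hx]
  · intro x _; simp
  · intro x _; simp

theorem sum_rt : ∑ g : G, rt g = Fintype.card G := by
  unfold rt
  have h := Finset.card_eq_sum_card_fiberwise (s := (univ : Finset G)) (t := univ)
    (f := fun x : G => x * x) (fun _ _ => by simp)
  rw [Finset.card_univ] at h
  exact h.symm

/-- pairs in `A × U` -/
theorem KA (S D A : Finset G) (c : G) (h1 : S ⊆ A) (h2 : A ⊆ S ∪ D) :
    (S.filter fun x => x * c ∈ S).card ≤ (A.filter fun x => x * c ∈ S ∪ D).card ∧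
    (A.filter fun x => x * c ∈ S ∪ D).card ≤ (S.filter fun x => x * c ∈ S).card + 2 * D.card := by
  constructor
  · apply Finset.card_le_card
    intro x hx
    rw [mem_filter] at hx ⊢
    exact ⟨h1 hx.1, mem_union_left _ hx.2⟩
  · have hsub : (A.filter fun x => x * c ∈ S ∪ D) ⊆
        (S.filter fun x => x * c ∈ S) ∪ (D ∪ D.image fun y => y * c⁻¹) := by
      intro x hx
      rw [mem_filter] at hx
      have hx1 := h2 hx.1
      rw [mem_union] at hx1
      rw [mem_union, mem_union, mem_filter, mem_image]
      rcases hx1 with h | h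
      · rcases mem_union.1 hx.2 with h' | h'
        · exact Or.inl ⟨h, h'⟩
        · exact Or.inr (Or.inr ⟨x * c, h', by group⟩)
      · exact Or.inr (Or.inl h)
    have e1 := (Finset.card_le_card hsub).trans (Finset.card_union_le _ _)
    have e2 := Finset.card_union_le D (D.image fun y => y * c⁻¹)
    have e3 : (D.image fun y => y * c⁻¹).card ≤ D.card := Finset.card_image_le
    omega

theorem KV (U : Finset G) (c : G) :
    (((univ \ U).filter fun x => x * c ∈ univ \ U).card : ℝ) = (Fintype.card G : ℝ) -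
      2 * U.card + ((U.filter fun x => x * c ∈ U).card : ℝ) := by
  have h1 : ((univ \ U).filter fun x => x * c ∈ univ \ U).card +
      ((univ \ U).filter fun x => x * c ∈ U).card = (univ \ U).card := by
    rw [← Finset.card_filter_add_card_filter_not (s := univ \ U) (fun x => x * c ∈ univ \ U)]
    congr 2
    ext x
    simp
  have h2 : ((univ \ U).filter fun x => x * c ∈ U).card +
      (U.filter fun x => x * c ∈ U).card = (univ.filter fun x : G => x * c ∈ U).card := by
    rw [← Finset.card_filter_add_card_filter_not (s := univ.filter fun x : G => x * c ∈ U)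
      (fun x => x ∈ U), add_comm]
    congr 1
    · congr 1
      ext x
      simp only [mem_filter, mem_univ, true_and]
      tauto
    · congr 1
      ext x
      simp only [mem_filter, mem_univ, true_and, mem_sdiff]
      tauto
  have h3 : (univ.filter fun x : G => x * c ∈ U).card = U.card := by
    refine Finset.card_bij' (fun x _ => x * c) (fun x _ => x * c⁻¹) ?_ ?_ ?_ ?_
    · intro x hx
      simpa using hx
    · intro x hx
      simpa using hx
    · intro x _; simp
    · intro x _; simp
  have h4 : (univ \ U).card + U.card = Fintype.card G := by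
    rw [Finset.card_sdiff_add_card_eq_card (Finset.subset_univ U), Finset.card_univ]
  have h1' : (((univ \ U).filter fun x => x * c ∈ univ \ U).card : ℝ) +
      (((univ \ U).filter fun x => x * c ∈ U).card : ℝ) = ((univ \ U).card : ℝ) := by
    exact_mod_cast h1
  have h2' : (((univ \ U).filter fun x => x * c ∈ U).card : ℝ) +
      ((U.filter fun x => x * c ∈ U).card : ℝ) = (U.card : ℝ) := by
    rw [← h3]; exact_mod_cast h2
  have h4' : (((univ \ U).card : ℕ) : ℝ) + U.card = Fintype.card G := by exact_mod_cast h4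
  linarith

theorem KAV (U A : Finset G) (c : G) :
    ((A.filter fun x => x * c ∈ univ \ U).card : ℝ) = (A.card : ℝ) -
      ((A.filter fun x => x * c ∈ U).card : ℝ) := by
  have h1 : (A.filter fun x => x * c ∈ univ \ U).card +
      (A.filter fun x => x * c ∈ U).card = A.card := by
    rw [← Finset.card_filter_add_card_filter_not (s := A) (fun x => x * c ∈ univ \ U)]
    congr 2
    ext x
    simp
  have h1' : ((A.filter fun x => x * c ∈ univ \ U).card : ℝ) +
      ((A.filter fun x => x * c ∈ U).card : ℝ) = (A.card : ℝ) := by exact_mod_cast h1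
  linarith

/-- the number of indices with `φ i * c ∈ V` -/
theorem img (I : Finset (Idx G)) (φ : Idx G → G) (hφ : Set.InjOn φ (I : Set (Idx G)))
    (V : Finset G) (c : G) : (I.filter fun i => φ i * c ∈ V).card =
      ((I.image φ).filter fun x => x * c ∈ V).card := by
  rw [← Finset.card_image_of_injOn (f := φ) (s := I.filter fun i => φ i * c ∈ V)
    (hφ.mono (by intro i hi; exact (mem_filter.1 (mem_coe.1 hi)).1))]
  congr 1
  ext x
  simp only [mem_image, mem_filter]
  constructor
  · rintro ⟨i, ⟨hi, hc⟩, rfl⟩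
    exact ⟨⟨i, hi, rfl⟩, hc⟩
  · rintro ⟨⟨i, hi, rfl⟩, hc⟩
    exact ⟨i, ⟨hi, hc⟩, rfl⟩

theorem stmt_PREP : Stmt_PREP := by
  intro ε hε
  set δ : ℝ := min (ε / 10) (1 / 160) with hδdef
  have hδ : 0 < δ := lt_min (by positivity) (by norm_num)
  have hδε : 10 * δ ≤ ε := by
    have : δ ≤ ε / 10 := min_le_left _ _
    linarith
  have hδ1 : δ ≤ 1 / 160 := min_le_right _ _
  refine ⟨δ, ⌈1 / ε⌉₊ + 1, 1, hδ, ?_⟩
  intro G _ _ _ _ D S V C J I hD hSD hJD hV hS6 hS3 hS2 hS4 hlen hsrc htgt hsS hsJ htS htJ
    hcV hcC h1C hfull hq5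
  set n : ℝ := (Fintype.card G : ℝ) with hn
  have hnpos : 0 < n := by rw [hn]; exact_mod_cast Fintype.card_pos
  have hmain : ∀ A : Finset G, ∀ c : G, c ≠ 1 → S ⊆ A → A ⊆ S ∪ D →
      |((A.filter fun x => x * c ∈ V).card : ℝ) - (A.card : ℝ) * V.card / n| ≤ ε * n := by
    intro A c hc hA1 hA2
    have hk := hS2 c hc
    obtain ⟨k1, k2⟩ := KA S D A c hA1 hA2
    have e1 := KAV (S ∪ D) A c
    rw [← hV] at e1
    have hUc : (S ∪ D).card = S.card + D.card := Finset.card_union_of_disjoint hSD
    have hVc : (V.card : ℝ) = n - (S.card + D.card) := by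
      have h4 : (univ \ (S ∪ D)).card + (S ∪ D).card = Fintype.card G := by
        rw [Finset.card_sdiff_add_card_eq_card (Finset.subset_univ _), Finset.card_univ]
      rw [← hV, hUc] at h4
      have : ((V.card : ℕ) : ℝ) + (S.card + D.card) = n := by rw [hn]; exact_mod_cast h4
      linarith
    have hA1' : (S.card : ℝ) ≤ A.card := by exact_mod_cast Finset.card_le_card hA1
    have hA2' : (A.card : ℝ) ≤ S.card + D.card := by
      have := Finset.card_le_card hA2
      rw [hUc] at this
      exact_mod_cast this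
    have hsd : (S.card : ℝ) + D.card ≤ n := by
      have : (0 : ℝ) ≤ V.card := Nat.cast_nonneg _
      linarith
    have k1' : ((S.filter fun x => x * c ∈ S).card : ℝ) ≤
        ((A.filter fun x => x * c ∈ S ∪ D).card : ℝ) := by exact_mod_cast k1
    have k2' : ((A.filter fun x => x * c ∈ S ∪ D).card : ℝ) ≤
        ((S.filter fun x => x * c ∈ S).card : ℝ) + 2 * D.card := by exact_mod_cast k2
    have e2 : (A.card : ℝ) * V.card / n = A.card - A.card * (S.card + D.card) / n := by
      rw [hVc]; field_simp
    have hs0 : (0 : ℝ) ≤ S.card := Nat.cast_nonneg _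
    have hd0 : (0 : ℝ) ≤ D.card := Nat.cast_nonneg _
    have e3 : (S.card : ℝ) ^ 2 / n ≤ A.card * (S.card + D.card) / n := by
      apply div_le_div_of_nonneg_right _ hnpos.le
      nlinarith
    have e4 : (A.card : ℝ) * (S.card + D.card) / n ≤ (S.card : ℝ) ^ 2 / n + 3 * D.card := by
      rw [div_add' _ _ _ hnpos.ne']
      apply div_le_div_of_nonneg_right _ hnpos.le
      have h5 : (A.card : ℝ) * (S.card + D.card) ≤ (S.card + D.card) * (S.card + D.card) :=
        mul_le_mul_of_nonneg_right hA2' (by linarith)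
      have h6 : (S.card : ℝ) * D.card ≤ n * D.card :=
        mul_le_mul_of_nonneg_right (by linarith) hd0
      have h7 : (D.card : ℝ) * D.card ≤ n * D.card :=
        mul_le_mul_of_nonneg_right (by linarith) hd0
      nlinarith
    rw [e1, e2]
    rw [abs_le] at hk ⊢
    constructor <;> nlinarith
  have hAs : ∀ φ : Idx G → G, Set.InjOn φ (I : Set (Idx G)) → (∀ x ∈ S, ∃ i ∈ I, φ i = x) →
      (∀ i ∈ I, φ i ∈ S ∨ φ i ∈ J) → S ⊆ I.image φ ∧ I.image φ ⊆ S ∪ D := by
    intro φ _ h1 h2
    constructor
    · intro x hx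
      obtain ⟨i, hi, rfl⟩ := h1 x hx
      exact mem_image_of_mem _ hi
    · intro x hx
      obtain ⟨i, hi, rfl⟩ := mem_image.1 hx
      rcases h2 i hi with h | h
      · exact mem_union_left _ h
      · exact mem_union_right _ (hJD h)
  have hIcard : ∀ φ : Idx G → G, Set.InjOn φ (I : Set (Idx G)) → (I.image φ).card = I.card :=
    fun φ hφ => Finset.card_image_of_injOn hφ
  obtain ⟨s1, s2⟩ := hAs (fun i => i.1) hsrc hsS hsJ
  obtain ⟨t1, t2⟩ := hAs (fun i => i.2.1) htgt htS htJ
  have hSI : S.card ≤ I.card := by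
    rw [← hIcard _ hsrc]; exact Finset.card_le_card s1
  have hIn : (I.card : ℝ) ≤ n := by
    rw [← hIcard _ hsrc, hn]
    exact_mod_cast Finset.card_le_univ _
  have hcne : ∀ c ∈ C, c ≠ 1 := fun c hc h => h1C (h ▸ hc)
  have hε1 : 1 / ε ≤ ((⌈1 / ε⌉₊ + 1 : ℕ) : ℝ) := by
    push_cast
    have := Nat.le_ceil (1 / ε)
    linarith
  set E := ⌈1 / ε⌉₊ + 1 with hE
  have hEpos : (0 : ℝ) < (E : ℝ) := by rw [hE]; positivity
  have hEε : 1 ≤ ε * (E : ℝ) := by
    have := mul_le_mul_of_nonneg_left hε1 hε.le
    rwa [mul_one_div, div_self hε.ne'] at this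
  refine ⟨hlen, hsrc, htgt, hcV, hcC, h1C, ?_, ?_, ?_, ?_, ?_, ?_, ?_⟩
  · omega
  · refine hfull.trans ?_
    exact mul_le_mul_of_nonneg_right (by linarith) hnpos.le
  · intro c hc
    have h := hmain (I.image fun i => i.1) c (hcne c hc) s1 s2
    rw [hIcard _ hsrc, ← img I (fun i => i.1) hsrc] at h
    exact h
  · intro c hc
    have h := hmain (I.image fun i => i.2.1) c⁻¹ (by simpa using hcne c hc) t1 t2
    rw [hIcard _ htgt, ← img I (fun i => i.2.1) htgt] at h
    exact h
  · intro c hc
    have hk := hS2 c (hcne c hc)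
    obtain ⟨k1, k2⟩ := KA S D (S ∪ D) c (subset_union_left) (Finset.Subset.refl _)
    have e1 := KV (S ∪ D) c
    rw [← hV] at e1
    have hUc : (S ∪ D).card = S.card + D.card := Finset.card_union_of_disjoint hSD
    have hVc : (V.card : ℝ) = n - (S.card + D.card) := by
      have h4 : (univ \ (S ∪ D)).card + (S ∪ D).card = Fintype.card G := by
        rw [Finset.card_sdiff_add_card_eq_card (Finset.subset_univ _), Finset.card_univ]
      rw [← hV, hUc] at h4
      have : ((V.card : ℕ) : ℝ) + (S.card + D.card) = n := by rw [hn]; exact_mod_cast h4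
      linarith
    have hsd : (S.card : ℝ) + D.card ≤ n := by
      have : (0 : ℝ) ≤ V.card := Nat.cast_nonneg _
      linarith
    have k1' : ((S.filter fun x => x * c ∈ S).card : ℝ) ≤
        (((S ∪ D).filter fun x => x * c ∈ S ∪ D).card : ℝ) := by exact_mod_cast k1
    have k2' : (((S ∪ D).filter fun x => x * c ∈ S ∪ D).card : ℝ) ≤
        ((S.filter fun x => x * c ∈ S).card : ℝ) + 2 * D.card := by exact_mod_cast k2
    have hs0 : (0 : ℝ) ≤ S.card := Nat.cast_nonneg _
    have hd0 : (0 : ℝ) ≤ D.card := Nat.cast_nonneg _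
    have e2 : (V.card : ℝ) ^ 2 / n = n - 2 * (S.card + D.card) +
        ((S.card : ℝ) + D.card) ^ 2 / n := by
      rw [hVc]; field_simp; ring
    have e3 : (S.card : ℝ) ^ 2 / n ≤ ((S.card : ℝ) + D.card) ^ 2 / n := by
      apply div_le_div_of_nonneg_right _ hnpos.le
      nlinarith
    have e4 : ((S.card : ℝ) + D.card) ^ 2 / n ≤ (S.card : ℝ) ^ 2 / n + 3 * D.card := by
      rw [div_add' _ _ _ hnpos.ne']
      apply div_le_div_of_nonneg_right _ hnpos.le
      have h6 : (S.card : ℝ) * D.card ≤ n * D.card :=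
        mul_le_mul_of_nonneg_right (by linarith) hd0
      have h7 : (D.card : ℝ) * D.card ≤ n * D.card :=
        mul_le_mul_of_nonneg_right (by linarith) hd0
      nlinarith
    rw [e1, e2, hUc]
    push_cast
    rw [abs_le] at hk ⊢
    constructor <;> nlinarith
  · intro a b c ha hb hc hab hac hbc
    have h4 := hS4 a b c ha hb hc hab hac hbc
    have hsub : (univ.filter fun x : G => x ∉ S ∧ x * a ∉ S ∧ x * b ∉ S ∧ x * c ∉ S) ⊆
        (V.filter fun x => x * a ∈ V ∧ x * b ∈ V ∧ x * c ∈ V) ∪
        ((D ∪ D.image fun y => y * a⁻¹) ∪ ((D.image fun y => y * b⁻¹) ∪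
          (D.image fun y => y * c⁻¹))) := by
      intro x hx
      simp only [mem_filter, mem_univ, true_and] at hx
      by_cases h0 : x ∈ D
      · simp [h0]
      by_cases h1 : x * a ∈ D
      · simp only [mem_union, mem_image]
        exact Or.inr (Or.inl (Or.inr ⟨x * a, h1, by group⟩))
      by_cases h2 : x * b ∈ D
      · simp only [mem_union, mem_image]
        exact Or.inr (Or.inr (Or.inl ⟨x * b, h2, by group⟩))
      by_cases h3 : x * c ∈ D
      · simp only [mem_union, mem_image]
        exact Or.inr (Or.inr (Or.inr ⟨x * c, h3, by group⟩))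
      rw [mem_union]
      left
      rw [hV]
      simp only [mem_filter, mem_sdiff, mem_univ, true_and, mem_union, not_or]
      exact ⟨⟨hx.1, h0⟩, ⟨hx.2.1, h1⟩, ⟨hx.2.2.1, h2⟩, ⟨hx.2.2.2, h3⟩⟩
    have c1 := (Finset.card_le_card hsub).trans (Finset.card_union_le _ _)
    have c2 := Finset.card_union_le (D ∪ D.image fun y => y * a⁻¹)
      ((D.image fun y => y * b⁻¹) ∪ (D.image fun y => y * c⁻¹))
    have c3 := Finset.card_union_le D (D.image fun y => y * a⁻¹)
    have c4 := Finset.card_union_le (D.image fun y => y * b⁻¹) (D.image fun y => y * c⁻¹)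
    have c5 : (D.image fun y => y * a⁻¹).card ≤ D.card := Finset.card_image_le
    have c6 : (D.image fun y => y * b⁻¹).card ≤ D.card := Finset.card_image_le
    have c7 : (D.image fun y => y * c⁻¹).card ≤ D.card := Finset.card_image_le
    have hD' : 160 * D.card ≤ Fintype.card G := by
      have : (160 : ℝ) * D.card ≤ n := by
        have : (D.card : ℝ) ≤ 1 / 160 * n := hD.trans (mul_le_mul_of_nonneg_right hδ1 hnpos.le)
        linarith
      rw [hn] at this
      exact_mod_cast this
    omega
  · -- q5
    have hEn : ∀ X : ℕ, E * X ≤ Fintype.card G * Fintype.card G → ((X : ℕ) : ℝ) ≤ ε * n ^ 2 := by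
      intro X hX
      have h1 : (E : ℝ) * X ≤ n * n := by rw [hn]; exact_mod_cast hX
      have h2 : (X : ℝ) ≤ ε * E * X := by
        have := mul_le_mul_of_nonneg_right hEε (Nat.cast_nonneg X : (0 : ℝ) ≤ X)
        linarith
      calc (X : ℝ) ≤ ε * E * X := h2
        _ = ε * (E * X) := by ring
        _ ≤ ε * (n * n) := mul_le_mul_of_nonneg_left h1 hε.le
        _ = ε * n ^ 2 := by ring
    have hInN : I.card ≤ Fintype.card G := by
      have : (I.card : ℝ) ≤ (Fintype.card G : ℝ) := hIn
      exact_mod_cast this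
    intro c hc
    have hgen : ∀ c' : G, (c' = c ∨ c' = c⁻¹) →
        ((∑ i ∈ I, rt (i.1⁻¹ * i.2.1 * c') : ℕ) : ℝ) ≤ ε * n ^ 2 := by
      intro c' hc'
      apply hEn
      rcases hq5 with ⟨hts, hrt⟩ | hg
      · have h1 : ∀ i ∈ I, rt (i.1⁻¹ * i.2.1 * c') = rt c := by
          intro i hi
          rw [hts i hi, inv_mul_cancel, one_mul]
          rcases hc' with rfl | rfl
          · rfl
          · exact rt_inv c
        rw [Finset.sum_congr rfl h1, Finset.sum_const, smul_eq_mul]
        calc E * (I.card * rt c) = I.card * (E * rt c) := by ring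
          _ ≤ Fintype.card G * Fintype.card G := Nat.mul_le_mul hInN (hrt c hc)
      · have h1 : ∑ i ∈ I, rt (i.1⁻¹ * i.2.1 * c') =
            ∑ g : G, (I.filter fun i => i.1⁻¹ * i.2.1 = g).card * rt (g * c') := by
          rw [← Finset.sum_fiberwise_of_maps_to (s := I) (t := (univ : Finset G))
            (g := fun i : Idx G => i.1⁻¹ * i.2.1) (fun _ _ => mem_univ _)]
          apply Finset.sum_congr rfl
          intro g _
          rw [← smul_eq_mul, ← Finset.sum_const]
          apply Finset.sum_congr rfl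
          intro i hi
          rw [mem_filter] at hi
          rw [hi.2]
        rw [h1, Finset.mul_sum]
        calc ∑ g : G, E * ((I.filter fun i => i.1⁻¹ * i.2.1 = g).card * rt (g * c'))
            ≤ ∑ g : G, Fintype.card G * rt (g * c') := by
              apply Finset.sum_le_sum
              intro g _
              rw [← mul_assoc]
              exact Nat.mul_le_mul_right _ (hg g)
          _ = Fintype.card G * ∑ g : G, rt (g * c') := by rw [Finset.mul_sum]
          _ = Fintype.card G * ∑ g : G, rt g := by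
              congr 1
              exact Equiv.sum_comp (Equiv.mulRight c') (fun g => rt g)
          _ = Fintype.card G * Fintype.card G := by rw [sum_rt]
    exact ⟨hgen c (Or.inl rfl), hgen c⁻¹ (Or.inr rfl)⟩

end Pool.OM.H59P
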