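import Pool.Agent.Work.MP_8d2cba_co_helper76.R

/-! MP_8d2cba_co: counting of bad tuples (helper59), from R1 and R2. -/

set_option autoImplicit false
set_option linter.unusedSectionVars false

namespace Pool.OM.H59
open Finset Pool.OM

section ev
variable {G : Type} [Group G]

theorem ev_nil (γ : G) (ρ : ℕ → G) : ev γ ρ [] = 1 := by simp [ev]

theorem ev_cons (γ : G) (ρ : ℕ → G) (a : ℕ × Bool) (w : Wd) :
    ev γ ρ (a :: w) = evL γ ρ a * ev γ ρ w := by simp [ev]

theorem ev_append (γ : G) (ρ : ℕ → G) (w w' : Wd) :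
    ev γ ρ (w ++ w') = ev γ ρ w * ev γ ρ w' := by simp [ev]

theorem evL_inv (ρ : ℕ → G) (a : ℕ × Bool) : evL 1 ρ (a.1, !a.2) = (evL 1 ρ a)⁻¹ := by
  rcases a with ⟨_ | j, _ | _⟩ <;> simp [evL]

theorem ev_inv (ρ : ℕ → G) (w : Wd) : ev 1 ρ (Wd.inv w) = (ev 1 ρ w)⁻¹ := by
  induction w with
  | nil => simp [Wd.inv, ev]
  | cons a w ih =>
    have : Wd.inv (a :: w) = Wd.inv w ++ [(a.1, !a.2)] := by simp [Wd.inv]
    rw [this, ev_append, ih, ev_cons, ev_nil, mul_one, evL_inv, ev_cons (w := w), mul_inv_rev]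

end ev

/-- colour words of a path given by words -/
def pcolsW (S : Wd) : List Wd → Wd → List Wd
  | [], T => [Wd.inv S ++ T]
  | x :: p, T => (Wd.inv S ++ x) :: pcolsW x p T

/-- system of vertex words: coordinate `j` is the word `W`, the others are the free variables -/
def isys (f j : ℕ) (W : Wd) : List Wd := (List.range (f + 1)).map fun i =>
  if i < j then [(i+1,true)] else if i = j then W else [(i,true)]

def fsys (m : ℕ) : List Wd := (List.range m).map fun i => [(i+1,true)]

def cwd (S : Wd) (xs : List Wd) (T : Wd) : List Wd := Sys.diffs xs ++ Sys.diffs (pcolsW S xs T)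

section ev2
variable {G : Type} [Group G]

theorem ev_pcolsW (ρ : ℕ → G) (S : Wd) (xs : List Wd) (T : Wd) :
    pcols (ev 1 ρ S) (xs.map (ev 1 ρ)) (ev 1 ρ T) = ((pcolsW S xs T).map (ev 1 ρ) : List G) := by
  induction xs generalizing S with
  | nil => simp [pcols, pcolsW, ev_append, ev_inv]
  | cons x xs ih => simp [pcols, pcolsW, ev_append, ev_inv, ih]

theorem nodup_of_diffs (ρ : ℕ → G) (ws : List Wd) (h : ∀ w ∈ Sys.diffs ws, ev 1 ρ w ≠ 1) :
    (ws.map (ev 1 ρ)).Nodup := by
  induction ws with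
  | nil => simp
  | cons u l ih =>
    rw [List.map_cons, List.nodup_cons]
    refine ⟨?_, ih fun w hw => h w (by simp [Sys.diffs, hw])⟩
    intro hmem
    obtain ⟨v, hv, e⟩ := List.mem_map.1 hmem
    refine h (u ++ Wd.inv v) ?_ ?_
    · simp only [Sys.diffs, List.mem_append, List.mem_map]
      exact Or.inl ⟨v, hv, rfl⟩
    · rw [ev_append, ev_inv, e, mul_inv_cancel]

/-- the path is allowed -/
def okL (C : Finset G) (s : G) (p : List G) (t : G) : Prop :=
  p.Nodup ∧ (pcols s p t).Nodup ∧ ∀ c ∈ pcols s p t, c ∈ C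

instance okL.dec [DecidableEq G] (C : Finset G) (s : G) (p : List G) (t : G) :
    Decidable (okL C s p t) := by
  unfold okL; infer_instance

theorem okL_of_words (ρ : ℕ → G) (S : Wd) (xs : List Wd) (T : Wd) (C : Finset G)
    (h : ∀ w ∈ cwd S xs T, ev 1 ρ w ≠ 1) (hC : ∀ w ∈ pcolsW S xs T, ev 1 ρ w ∈ C) :
    okL C (ev 1 ρ S) (xs.map (ev 1 ρ)) (ev 1 ρ T) := by
  refine ⟨nodup_of_diffs ρ xs fun w hw => h w (by simp [cwd, hw]), ?_, ?_⟩
  · rw [ev_pcolsW]
    exact nodup_of_diffs ρ _ fun w hw => h w (by simp [cwd, hw])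
  · rw [ev_pcolsW]
    intro c hc
    obtain ⟨w, hw, rfl⟩ := List.mem_map.1 (by simpa using hc)
    exact hC w hw

end ev2

theorem lobls_mem {f : ℕ} {ws : List Wd} {obs : List Ob} (h : Sys.lobls f ws = some obs)
    {w : Wd} (hw : w ∈ ws) : ∃ l, Wd.obl f w = some l ∧ ∀ o ∈ l, o ∈ obs := by
  induction ws generalizing obs with
  | nil => simp at hw
  | cons a ws ih =>
    have hd : Sys.lobls f (a :: ws) = (match Sys.lobls f ws, Wd.obl f a with
      | some l, some l' => some (l' ++ l)
      | _, _ => none) := rfl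
    rw [hd] at h
    split at h
    · rename_i l l' h1 h2
      simp only [Option.some.injEq] at h
      rcases List.mem_cons.1 hw with rfl | hw
      · exact ⟨l', h2, fun o ho => by rw [← h]; simp [ho]⟩
      · obtain ⟨l'', h3, h4⟩ := ih h1 hw
        exact ⟨l'', h3, fun o ho => by rw [← h]; simp [h4 o ho]⟩
    · simp at h

section cnt
variable {G : Type} [Group G] [Fintype G] [DecidableEq G]

/-- sum of the numbers of square roots of the obligations -/
def rtv (ρ : ℕ → G) : Ob → ℕ
  | Ob.rt A => rt (ev 1 ρ A)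
  | _ => 0

/-- sum of the numbers of square roots of the obligations -/
def rtO (ρ : ℕ → G) (obs : List Ob) : ℕ := (obs.map (rtv ρ)).sum

theorem rt_le_rtO (ρ : ℕ → G) {obs : List Ob} {A : Wd} (h : Ob.rt A ∈ obs) :
    rt (ev 1 ρ A) ≤ rtO ρ obs := by
  unfold rtO
  apply List.single_le_sum (fun x _ => Nat.zero_le x)
  rw [List.mem_map]
  exact ⟨_, h, rfl⟩

theorem one_word (hR1 : Stmt_R1) (f : ℕ) (w : Wd) (l obs : List Ob)
    (hl : Wd.obl f w = some l) (hlo : ∀ o ∈ l, o ∈ obs) (ρ : ℕ → G)
    (hob : ∀ o ∈ obs, (∃ A, o = Ob.rt A) ∨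
      ∃ A, o = Ob.ne A ∧ ev 1 (join f (fun _ => 1) ρ) A ≠ 1) :
    Fintype.card G * (univ.filter fun ω : Fin f → G => ev 1 (join f ω ρ) w = 1).card ≤
      2 * (1 + rtO (join f (fun _ => 1) ρ) obs) * Fintype.card G ^ f := by
  set n := Fintype.card G with hn
  have hnpos : 0 < n := Fintype.card_pos
  set R := 1 + rtO (join f (fun _ => 1) ρ) obs with hR
  set c := (univ.filter fun ω : Fin f → G => ev 1 (join f ω ρ) w = 1).card with hc
  have hc_le : c ≤ n ^ f := by
    refine (Finset.card_le_univ _).trans ?_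
    simp [hn]
  rcases le_or_gt R n with hRn | hRn
  · have hKpos : 0 < n / R := Nat.div_pos hRn (by omega)
    have hKR : n / R * R ≤ n := Nat.div_mul_le_self n R
    have h1 : n / R * c ≤ n ^ f := by
      refine hR1 G 1 (by simp) f w l hl (n / R) ρ (Nat.div_le_self n R) ?_
      intro o ho
      rcases hob o (hlo o ho) with ⟨A, rfl⟩ | ⟨A, rfl, hA⟩
      · show n / R * rt _ ≤ n
        refine le_trans (Nat.mul_le_mul_left _ ?_) hKR
        have := rt_le_rtO (join f (fun _ => 1) ρ) (hlo _ ho)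
        omega
      · exact hA
    have h2 : n < (n / R + 1) * R := by
      have := Nat.lt_div_mul_add (a := n) (b := R) (by omega)
      nlinarith
    have h3 : n ≤ 2 * (n / R) * R := by
      have : (n / R + 1) ≤ 2 * (n / R) := by omega
      nlinarith
    calc n * c ≤ 2 * (n / R) * R * c := Nat.mul_le_mul_right _ h3
      _ = 2 * R * (n / R * c) := by ring
      _ ≤ 2 * R * n ^ f := Nat.mul_le_mul_left _ h1
  · calc n * c ≤ R * n ^ f := Nat.mul_le_mul hRn.le hc_le
      _ ≤ 2 * R * n ^ f := by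
        apply Nat.mul_le_mul_right; omega

theorem card_exists_le {α β : Type} [Fintype α] [DecidableEq α] (l : List β)
    (P : α → β → Prop) [∀ a b, Decidable (P a b)] (N B : ℕ)
    (h : ∀ b ∈ l, N * (univ.filter fun a => P a b).card ≤ B) :
    N * (univ.filter fun a => ∃ b ∈ l, P a b).card ≤ l.length * B := by
  classical
  induction l with
  | nil => simp
  | cons b l ih =>
    have hsub : (univ.filter fun a => ∃ c ∈ b :: l, P a c) ⊆
        (univ.filter fun a => P a b) ∪ (univ.filter fun a => ∃ c ∈ l, P a c) := by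
      intro a ha
      simp only [mem_filter, mem_univ, true_and, mem_union, List.mem_cons] at ha ⊢
      obtain ⟨c, rfl | hc, h'⟩ := ha
      · exact Or.inl h'
      · exact Or.inr ⟨c, hc, h'⟩
    have h1 := (Finset.card_le_card hsub).trans (Finset.card_union_le _ _)
    have h2 := h b (by simp)
    have h3 := ih fun c hc => h c (by simp [hc])
    calc N * (univ.filter fun a => ∃ c ∈ b :: l, P a c).card
        ≤ N * ((univ.filter fun a => P a b).card +
          (univ.filter fun a => ∃ c ∈ l, P a c).card) := Nat.mul_le_mul_left _ h1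
      _ ≤ B + l.length * B := by rw [mul_add]; exact add_le_add h2 h3
      _ = (b :: l).length * B := by simp; ring

theorem unif_word (hR2 : Stmt_R2) (f : ℕ) (w : Wd) (hw : Wd.lin f (Wd.red w) = true)
    (ρ : ℕ → G) (C : Finset G) :
    Fintype.card G * (univ.filter fun ω : Fin f → G => ¬ ev 1 (join f ω ρ) w ∈ C).card ≤
      (univ \ C).card * Fintype.card G ^ f := by
  have h : (univ.filter fun ω : Fin f → G => ¬ ev 1 (join f ω ρ) w ∈ C) =
      (univ \ C).biUnion fun c => univ.filter fun ω : Fin f → G => ev 1 (join f ω ρ) w = c := by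
    ext ω
    simp
  rw [h]
  calc Fintype.card G * ((univ \ C).biUnion fun c =>
        univ.filter fun ω : Fin f → G => ev 1 (join f ω ρ) w = c).card
      ≤ Fintype.card G * ∑ c ∈ univ \ C,
        (univ.filter fun ω : Fin f → G => ev 1 (join f ω ρ) w = c).card :=
        Nat.mul_le_mul_left _ Finset.card_biUnion_le
    _ = ∑ c ∈ univ \ C, Fintype.card G ^ f := by
        rw [Finset.mul_sum]
        exact Finset.sum_congr rfl fun c _ => hR2 G 1 (by simp) f w hw ρ c
    _ = (univ \ C).card * Fintype.card G ^ f := by simp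

/-- main counting lemma -/
theorem bad_bound (hR1 : Stmt_R1) (hR2 : Stmt_R2) (f : ℕ) (xs : List Wd) (S T : Wd)
    (obs : List Ob) (hobs : Sys.lobls f (cwd S xs T) = some obs) (ρ : ℕ → G) (C : Finset G)
    (hob : ∀ o ∈ obs, (∃ A, o = Ob.rt A) ∨
      ∃ A, o = Ob.ne A ∧ ev 1 (join f (fun _ => 1) ρ) A ≠ 1)
    (hst : ∀ w ∈ pcolsW S xs T, Wd.lin f (Wd.red w) = true ∨ ∀ ω, ev 1 (join f ω ρ) w ∈ C) :
    Fintype.card G * (univ.filter fun ω : Fin f → G => ¬ okL C (ev 1 (join f ω ρ) S)
      (xs.map (ev 1 (join f ω ρ))) (ev 1 (join f ω ρ) T)).card ≤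
      (2 * (cwd S xs T).length * (1 + rtO (join f (fun _ => 1) ρ) obs) +
        (pcolsW S xs T).length * (univ \ C).card) * Fintype.card G ^ f := by
  set n := Fintype.card G with hn
  have hsub : (univ.filter fun ω : Fin f → G => ¬ okL C (ev 1 (join f ω ρ) S)
      (xs.map (ev 1 (join f ω ρ))) (ev 1 (join f ω ρ) T)) ⊆
      (univ.filter fun ω : Fin f → G => ∃ w ∈ cwd S xs T, ev 1 (join f ω ρ) w = 1) ∪
      (univ.filter fun ω : Fin f → G => ∃ w ∈ pcolsW S xs T, ¬ ev 1 (join f ω ρ) w ∈ C) := by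
    intro ω hω
    simp only [mem_filter, mem_univ, true_and, mem_union] at hω ⊢
    by_contra hcon
    push Not at hcon
    exact hω (okL_of_words _ S xs T C hcon.1 hcon.2)
  have h1 : n * (univ.filter fun ω : Fin f → G => ∃ w ∈ cwd S xs T,
      ev 1 (join f ω ρ) w = 1).card ≤ (cwd S xs T).length *
      (2 * (1 + rtO (join f (fun _ => 1) ρ) obs) * n ^ f) := by
    apply card_exists_le
    intro w hw
    obtain ⟨l, hl, hlo⟩ := lobls_mem hobs hw
    exact one_word hR1 f w l obs hl hlo ρ hob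
  have h2 : n * (univ.filter fun ω : Fin f → G => ∃ w ∈ pcolsW S xs T,
      ¬ ev 1 (join f ω ρ) w ∈ C).card ≤ (pcolsW S xs T).length *
      ((univ \ C).card * n ^ f) := by
    apply card_exists_le
    intro w hw
    rcases hst w hw with h | h
    · exact unif_word hR2 f w h ρ C
    · have : (univ.filter fun ω : Fin f → G => ¬ ev 1 (join f ω ρ) w ∈ C) = ∅ := by
        rw [Finset.filter_eq_empty_iff]
        intro ω _
        simpa using h ω
      rw [this]; simp
  calc n * (univ.filter fun ω : Fin f → G => ¬ okL C (ev 1 (join f ω ρ) S)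
        (xs.map (ev 1 (join f ω ρ))) (ev 1 (join f ω ρ) T)).card
      ≤ n * ((univ.filter fun ω : Fin f → G => ∃ w ∈ cwd S xs T,
          ev 1 (join f ω ρ) w = 1).card + (univ.filter fun ω : Fin f → G =>
          ∃ w ∈ pcolsW S xs T, ¬ ev 1 (join f ω ρ) w ∈ C).card) :=
        Nat.mul_le_mul_left _ ((Finset.card_le_card hsub).trans (Finset.card_union_le _ _))
    _ ≤ (cwd S xs T).length * (2 * (1 + rtO (join f (fun _ => 1) ρ) obs) * n ^ f) +
        (pcolsW S xs T).length * ((univ \ C).card * n ^ f) := by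
        rw [mul_add]; exact add_le_add h1 h2
    _ = _ := by ring

/-! ### functions on `Fin m` -/

/-- colour of arc `a` of the path -/
def colF {m : ℕ} (s t : G) (x : Fin m → G) (a : Fin (m + 1)) : G :=
  ((Fin.cons s x : Fin (m + 1) → G) a)⁻¹ * (Fin.snoc x t : Fin (m + 1) → G) a

theorem pcols_ofFn {m : ℕ} (s t : G) (x : Fin m → G) :
    pcols s (List.ofFn x) t = (List.ofFn (colF s t x) : Multiset G) := by
  induction m generalizing s with
  | zero => simp [pcols, colF, Fin.snoc]
  | succ m ih =>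
    rw [List.ofFn_succ, List.ofFn_succ (f := colF s t x)]
    have h0 : colF s t x 0 = s⁻¹ * x 0 := by
      simp only [colF, Fin.cons_zero]
      congr 1
    have hs : ∀ a : Fin (m + 1), colF s t x a.succ = colF (x 0) t (fun i => x i.succ) a := by
      intro a
      simp only [colF, Fin.cons_succ]
      congr 1
      · refine Fin.cases ?_ (fun b => ?_) a
        · simp
        · simp
      · refine Fin.lastCases ?_ (fun b => ?_) a
        · rw [Fin.succ_last]; simp
        · rw [Fin.succ_castSucc, Fin.snoc_castSucc, Fin.snoc_castSucc]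
    simp only [pcols, ih, h0, hs]
    simp

/-- parameters -/
def par (s t v : G) (k : ℕ) : G := if k = 0 then s else if k = 1 then t else v

def ok {m : ℕ} (C : Finset G) (s t : G) (x : Fin m → G) : Prop := okL C s (List.ofFn x) t

instance ok.dec {m : ℕ} (C : Finset G) (s t : G) (x : Fin m → G) : Decidable (ok C s t x) := by
  unfold ok; infer_instance

theorem ev_free (f : ℕ) (ω : Fin f → G) (ρ : ℕ → G) (i : ℕ) (hi : i < f) :
    ev 1 (join f ω ρ) [(i + 1, true)] = ω ⟨i, hi⟩ := by
  simp [ev, evL, join, hi]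

theorem ev_par (f : ℕ) (ω : Fin f → G) (ρ : ℕ → G) (i : ℕ) :
    ev 1 (join f ω ρ) [(f + i + 1, true)] = ρ i := by
  simp [ev, evL, join]

theorem isys_list (f : ℕ) (j : Fin (f + 1)) (W : Wd) (ρ : ℕ → G) (x : Fin (f + 1) → G)
    (hx : x j = ev 1 (join f (fun i => x (j.succAbove i)) ρ) W) :
    (isys f j W).map (ev 1 (join f (fun i => x (j.succAbove i)) ρ)) = List.ofFn x := by
  apply List.ext_getElem
  · simp [isys]
  · intro i h1 h2
    have hi : i < f + 1 := by simpa using h2
    simp only [isys, List.map_map, List.getElem_map, List.getElem_range, Function.comp,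
      List.getElem_ofFn]
    split_ifs with hij hij'
    · rw [ev_free f _ ρ i (by omega)]
      congr 1
      rw [Fin.succAbove_of_castSucc_lt]
      · rfl
      · exact hij
    · rw [← hx]
      congr 1
      exact Fin.ext hij'.symm
    · obtain ⟨k, rfl⟩ : ∃ k, i = k + 1 := ⟨i - 1, by omega⟩
      rw [ev_free f _ ρ k (by omega)]
      congr 1
      rw [Fin.succAbove_of_le_castSucc]
      · rfl
      · rw [Fin.le_def]
        simp only [Fin.val_castSucc]
        omega

theorem fsys_list (m : ℕ) (ρ : ℕ → G) (x : Fin m → G) :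
    (fsys m).map (ev 1 (join m x ρ)) = List.ofFn x := by
  apply List.ext_getElem
  · simp [fsys]
  · intro i h1 h2
    have hi : i < m := by simpa using h2
    simp only [fsys, List.map_map, List.getElem_map, List.getElem_range, Function.comp,
      List.getElem_ofFn]
    rw [ev_free m _ ρ i hi]

theorem pt_aux (hR1 : Stmt_R1) (hR2 : Stmt_R2) (f : ℕ) (j : Fin (f + 1)) (W : Wd) (s t v : G)
    (C : Finset G) (P : (Fin (f + 1) → G) → Prop) [DecidablePred P]
    (hP : ∀ x, P x → x j = ev 1 (join f (fun i => x (j.succAbove i)) (par s t v)) W)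
    (obs : List Ob)
    (hobs : Sys.lobls f (cwd [(f+1,true)] (isys f j W) [(f+2,true)]) = some obs)
    (hob : ∀ o ∈ obs, (∃ A, o = Ob.rt A) ∨
      ∃ A, o = Ob.ne A ∧ ev 1 (join f (fun _ => 1) (par s t v)) A ≠ 1)
    (hst : ∀ w ∈ pcolsW [(f+1,true)] (isys f j W) [(f+2,true)], Wd.lin f (Wd.red w) = true ∨
      ∀ ω, ev 1 (join f ω (par s t v)) w ∈ C) :
    Fintype.card G * (univ.filter fun x : Fin (f + 1) → G => P x ∧ ¬ ok C s t x).card ≤
      (2 * (cwd [(f+1,true)] (isys f j W) [(f+2,true)]).length *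
        (1 + rtO (join f (fun _ => 1) (par s t v)) obs) +
        (pcolsW [(f+1,true)] (isys f j W) [(f+2,true)]).length * (univ \ C).card) *
        Fintype.card G ^ f := by
  refine le_trans (Nat.mul_le_mul_left _ ?_)
    (bad_bound hR1 hR2 f (isys f j W) [(f+1,true)] [(f+2,true)] obs hobs (par s t v) C hob hst)
  refine Finset.card_le_card_of_injOn (fun x i => x (j.succAbove i)) ?_ ?_
  · intro x hx
    simp only [coe_filter, mem_univ, true_and, Set.mem_ofPred_eq] at hx ⊢
    rw [isys_list f j W (par s t v) x (hP x hx.1)]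
    have e1 : ev 1 (join f (fun i => x (j.succAbove i)) (par s t v)) [(f+1,true)] = s := by
      have := ev_par f (fun i => x (j.succAbove i)) (par s t v) 0
      simpa [par] using this
    have e2 : ev 1 (join f (fun i => x (j.succAbove i)) (par s t v)) [(f+2,true)] = t := by
      have := ev_par f (fun i => x (j.succAbove i)) (par s t v) 1
      simpa [par] using this
    rw [e1, e2]
    exact hx.2
  · intro x hx y hy hxy
    simp only [coe_filter, mem_univ, true_and, Set.mem_ofPred_eq] at hx hy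
    have h1 : ∀ i, x (j.succAbove i) = y (j.succAbove i) := fun i => congrFun hxy i
    funext k
    rcases Fin.eq_self_or_eq_succAbove j k with rfl | ⟨i, rfl⟩
    · rw [hP x hx.1, hP y hy.1]
      have : (fun i => x (k.succAbove i)) = fun i => y (k.succAbove i) := funext h1
      rw [this]
    · exact h1 i

end cnt

/-- decidable check of a system -/
def chk (f j : ℕ) (W : Wd) (okO : Ob → Bool) (okW : Wd → Bool) : Bool :=
  match Sys.lobls f (cwd [(f+1,true)] (isys f j W) [(f+2,true)]) with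
  | none => false
  | some obs => obs.all okO && Nat.ble obs.length 2 &&
    Nat.ble (cwd [(f+1,true)] (isys f j W) [(f+2,true)]).length 16 &&
    Nat.ble (pcolsW [(f+1,true)] (isys f j W) [(f+2,true)]).length 5 &&
    (pcolsW [(f+1,true)] (isys f j W) [(f+2,true)]).all fun w => Wd.lin f (Wd.red w) || okW w

section pt
variable {G : Type} [Group G] [Fintype G] [DecidableEq G]

theorem rtO_le (ρ : ℕ → G) (r : ℕ) (obs : List Ob)
    (h : ∀ o ∈ obs, (∃ A, o = Ob.rt A ∧ rt (ev 1 ρ A) ≤ r) ∨ ∃ A, o = Ob.ne A) :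
    rtO ρ obs ≤ obs.length * r := by
  induction obs with
  | nil => simp [rtO]
  | cons o l ih =>
    have h1 := ih fun o ho => h o (by simp [ho])
    have h2 : rtO ρ (o :: l) = rtv ρ o + rtO ρ l := by
      simp only [rtO, List.map_cons, List.sum_cons]
    rw [h2, List.length_cons, Nat.succ_mul]
    rcases h o (by simp) with ⟨A, rfl, hA⟩ | ⟨A, rfl⟩
    · simp only [rtv]; omega
    · simp only [rtv]; omega

theorem pt_chk (hR1 : Stmt_R1) (hR2 : Stmt_R2) (f : ℕ) (hf : 1 ≤ f) (j : Fin (f + 1)) (W : Wd)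
    (s t v : G) (C : Finset G) (P : (Fin (f + 1) → G) → Prop) [DecidablePred P]
    (hP : ∀ x, P x → x j = ev 1 (join f (fun i => x (j.succAbove i)) (par s t v)) W)
    (okO : Ob → Bool) (okW : Wd → Bool) (hc : chk f j W okO okW = true) (r : ℕ)
    (hO : ∀ o, okO o = true → (∃ A, o = Ob.rt A ∧
      rt (ev 1 (join f (fun _ => 1) (par s t v)) A) ≤ r) ∨
      ∃ A, o = Ob.ne A ∧ ev 1 (join f (fun _ => 1) (par s t v)) A ≠ 1)
    (hW : ∀ w, okW w = true → ∀ ω, ev 1 (join f ω (par s t v)) w ∈ C) :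
    (univ.filter fun x : Fin (f + 1) → G => P x ∧ ¬ ok C s t x).card ≤
      64 * (1 + (univ \ C).card + r) * Fintype.card G ^ (f - 1) := by
  unfold chk at hc
  split at hc
  · exact absurd hc Bool.false_ne_true
  · rename_i obs hobs
    simp only [Bool.and_eq_true, Nat.ble_eq, List.all_eq_true, Bool.or_eq_true] at hc
    obtain ⟨⟨⟨⟨h1, h2⟩, h3⟩, h4⟩, h5⟩ := hc
    have key := pt_aux hR1 hR2 f j W s t v C P hP obs hobs (by
      intro o ho
      rcases hO o (h1 o ho) with ⟨A, hA, _⟩ | h
      · exact Or.inl ⟨A, hA⟩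
      · exact Or.inr h) (by
      intro w hw
      rcases h5 w hw with h | h
      · exact Or.inl h
      · exact Or.inr (hW w h))
    have hr : rtO (join f (fun _ => 1) (par s t v)) obs ≤ 2 * r := by
      refine (rtO_le _ r obs ?_).trans (Nat.mul_le_mul_right _ h2)
      intro o ho
      rcases hO o (h1 o ho) with h | ⟨A, hA, _⟩
      · exact Or.inl h
      · exact Or.inr ⟨A, hA⟩
    have hn : 0 < Fintype.card G := Fintype.card_pos
    have hpow : Fintype.card G ^ f = Fintype.card G * Fintype.card G ^ (f - 1) := by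
      rw [← pow_succ']; congr 1; omega
    rw [hpow] at key
    refine Nat.le_of_mul_le_mul_left (key.trans ?_) hn
    set L := (cwd [(f+1,true)] (isys f j W) [(f+2,true)]).length
    set M := (pcolsW [(f+1,true)] (isys f j W) [(f+2,true)]).length
    set X := Fintype.card G ^ (f - 1)
    have h6 : 2 * L * (1 + rtO (join f (fun _ => 1) (par s t v)) obs) + M * (univ \ C).card ≤
        64 * (1 + (univ \ C).card + r) := by
      have e1 : 2 * L * (1 + rtO (join f (fun _ => 1) (par s t v)) obs) ≤ 32 * (1 + 2 * r) :=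
        Nat.mul_le_mul (by omega) (by omega)
      have e2 : M * (univ \ C).card ≤ 5 * (univ \ C).card := Nat.mul_le_mul_right _ h4
      omega
    calc _ ≤ 64 * (1 + (univ \ C).card + r) * (Fintype.card G * X) := Nat.mul_le_mul_right _ h6
      _ = _ := by ring

theorem chkV : ∀ f ∈ [1, 2, 3], ∀ j ∈ List.range (f + 1), chk f j [(f+3,true)]
    (fun o => decide (o = Ob.rt [(f+3,true),(f+2,false)] ∨ o = Ob.rt [(f+1,true),(f+3,false)]))
    (fun w => decide ((j = 0 ∧ w = [(f+1,false),(f+3,true)]) ∨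
      (j = f ∧ w = [(f+3,false),(f+2,true)]))) = true := by decide +kernel

/-- words for the colour systems -/
def cW (f a : ℕ) : Wd := if a = 0 then [(f+1,true),(f+3,true)] else
  if a = f + 1 then [(f+2,true),(f+3,false)] else [(a,true),(f+3,true)]

def cJ (f a : ℕ) : ℕ := if a = f + 1 then f else a

theorem chkC : ∀ f ∈ [1, 2, 3], ∀ a ∈ List.range (f + 2), chk f (cJ f a) (cW f a)
    (fun o => decide (o = Ob.rt [(f+1,true),(f+3,true),(f+2,false)] ∨
      o = Ob.rt [(f+1,true),(f+3,false),(f+2,false)] ∨ o = Ob.ne [(f+3,false)]))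
    (fun w => decide (Wd.red w = [(f+3,true)])) = true := by decide +kernel


/-- position systems: `x j = v` -/
theorem ptV {m : ℕ} (hm : m = 2 ∨ m = 3 ∨ m = 4)
    (C : Finset G) (s t v : G) (j : Fin m) (h0 : (j : ℕ) = 0 → s⁻¹ * v ∈ C)
    (h1 : (j : ℕ) + 1 = m → v⁻¹ * t ∈ C) :
    (univ.filter fun x : Fin m → G => x j = v ∧ ¬ ok C s t x).card ≤
      64 * (1 + (univ \ C).card + (rt (s * v⁻¹) + rt (v * t⁻¹))) *
        Fintype.card G ^ (m - 2) := by
  obtain ⟨f, rfl, hf⟩ : ∃ f, m = f + 1 ∧ f ∈ [1, 2, 3] := by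
    rcases hm with rfl | rfl | rfl
    · exact ⟨1, rfl, by simp⟩
    · exact ⟨2, rfl, by simp⟩
    · exact ⟨3, rfl, by simp⟩
  have hf1 : 1 ≤ f := by
    simp only [List.mem_cons, List.not_mem_nil, or_false] at hf; omega
  have e : f + 1 - 2 = f - 1 := by omega
  rw [e]
  refine pt_chk h76.stmt_R1 h76.stmt_R2 f hf1 j [(f+3,true)] s t v C (fun x => x j = v) ?_ _ _
    (chkV f hf j (by simp [j.2])) (rt (s * v⁻¹) + rt (v * t⁻¹)) ?_ ?_
  · intro x hx
    have := ev_par f (fun i => x (j.succAbove i)) (par s t v) 2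
    rw [this, hx]; simp [par]
  · intro o ho
    simp only [decide_eq_true_eq] at ho
    left
    rcases ho with rfl | rfl
    · refine ⟨_, rfl, ?_⟩
      simp [ev, evL, join, par]
    · refine ⟨_, rfl, ?_⟩
      simp [ev, evL, join, par]
  · intro w hw ω
    simp only [decide_eq_true_eq] at hw
    rcases hw with ⟨hj, rfl⟩ | ⟨hj, rfl⟩
    · have := h0 hj
      simpa [ev, evL, join, par] using this
    · have := h1 (by omega)
      simpa [ev, evL, join, par] using this

theorem colF_zero {f : ℕ} (s t : G) (x : Fin (f + 1) → G) : colF s t x 0 = s⁻¹ * x 0 := by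
  simp only [colF, Fin.cons_zero]
  congr 1

theorem colF_last {f : ℕ} (s t : G) (x : Fin (f + 1) → G) :
    colF s t x (Fin.last (f + 1)) = (x (Fin.last f))⁻¹ * t := by
  simp only [colF, Fin.snoc_last]
  congr 2

theorem colF_mid {f : ℕ} (s t : G) (x : Fin (f + 1) → G) (k : ℕ) (hk : k < f) :
    colF s t x ⟨k + 1, by omega⟩ = (x ⟨k, by omega⟩)⁻¹ * x ⟨k + 1, by omega⟩ := by
  have e1 : (Fin.cons s x : Fin (f + 2) → G) ⟨k + 1, by omega⟩ = x ⟨k, by omega⟩ := rfl
  have e2 : (Fin.snoc x t : Fin (f + 2) → G) ⟨k + 1, by omega⟩ = x ⟨k + 1, by omega⟩ := by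
    have := Fin.snoc_castSucc (α := fun _ => G) t x (⟨k + 1, by omega⟩ : Fin (f + 1))
    exact this
  unfold colF
  rw [e1, e2]

/-- colour systems -/
theorem ptC {m : ℕ} (hm : m = 2 ∨ m = 3 ∨ m = 4)
    (C : Finset G) (h1C : (1 : G) ∉ C) (s t c : G) (hc : c ∈ C) (a : Fin (m + 1)) :
    (univ.filter fun x : Fin m → G => colF s t x a = c ∧ ¬ ok C s t x).card ≤
      64 * (1 + (univ \ C).card + (rt (s * c * t⁻¹) + rt (s * c⁻¹ * t⁻¹))) *
        Fintype.card G ^ (m - 2) := by
  obtain ⟨f, rfl, hf⟩ : ∃ f, m = f + 1 ∧ f ∈ [1, 2, 3] := by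
    rcases hm with rfl | rfl | rfl
    · exact ⟨1, rfl, by simp⟩
    · exact ⟨2, rfl, by simp⟩
    · exact ⟨3, rfl, by simp⟩
  have hf1 : 1 ≤ f := by
    simp only [List.mem_cons, List.not_mem_nil, or_false] at hf; omega
  have e : f + 1 - 2 = f - 1 := by omega
  have hJ : cJ f a < f + 1 := by
    unfold cJ
    have := a.2
    split_ifs <;> omega
  rw [e]
  refine pt_chk h76.stmt_R1 h76.stmt_R2 f hf1 ⟨cJ f a, hJ⟩ (cW f a) s t c C (fun x => colF s t x a = c) ?_ _ _
    (chkC f hf a (by simp [a.2])) (rt (s * c * t⁻¹) + rt (s * c⁻¹ * t⁻¹)) ?_ ?_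
  · intro x hx
    obtain ⟨a, ha⟩ := a
    by_cases h0 : a = 0
    · subst h0
      have hx' : s⁻¹ * x 0 = c := by rw [← colF_zero s t x]; exact hx
      have : x ⟨cJ f 0, hJ⟩ = x 0 := by
        congr 1
      show x ⟨cJ f 0, hJ⟩ = _
      rw [this, ← hx']
      simp [cW, ev, evL, join, par]
    · by_cases h1 : a = f + 1
      · subst h1
        have hx' : (x (Fin.last f))⁻¹ * t = c := by rw [← colF_last s t x]; exact hx
        have : x ⟨cJ f (f + 1), hJ⟩ = x (Fin.last f) := by
          congr 1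
          apply Fin.ext
          simp [cJ]
        show x ⟨cJ f (f + 1), hJ⟩ = _
        rw [this, ← hx']
        simp [cW, ev, evL, join, par]
      · obtain ⟨k, rfl⟩ : ∃ k, a = k + 1 := ⟨a - 1, by omega⟩
        have hx' := colF_mid s t x k (by omega)
        rw [hx] at hx'
        have hkf : k ≠ f := by omega
        have : x ⟨cJ f (k + 1), hJ⟩ = x ⟨k + 1, by omega⟩ := by
          congr 1
          simp [cJ, hkf]
        show x ⟨cJ f (k + 1), hJ⟩ = _
        rw [this]
        have e3 : cW f (k + 1) = [(k + 1, true)] ++ [(f + 3, true)] := by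
          simp [cW, hkf]
        show _ = ev 1 _ (cW f (k + 1))
        rw [e3, ev_append, ev_free f _ _ k (by omega)]
        have e4 := ev_par f (fun i => x ((⟨cJ f (k + 1), hJ⟩ : Fin (f + 1)).succAbove i))
          (par s t c) 2
        have e5 : (⟨cJ f (k + 1), hJ⟩ : Fin (f + 1)).succAbove ⟨k, by omega⟩ =
            ⟨k, by omega⟩ := by
          rw [Fin.succAbove_of_castSucc_lt]
          · rfl
          · rw [Fin.lt_def]
            simp [cJ, hkf]
        rw [e4, e5, hx']
        simp [par]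
  · intro o ho
    simp only [decide_eq_true_eq] at ho
    rcases ho with rfl | rfl | rfl
    · left
      refine ⟨_, rfl, ?_⟩
      simp [ev, evL, join, par, mul_assoc]
    · left
      refine ⟨_, rfl, ?_⟩
      simp [ev, evL, join, par, mul_assoc]
    · right
      refine ⟨_, rfl, ?_⟩
      have : c ≠ 1 := fun h => h1C (h ▸ hc)
      simpa [ev, evL, join, par] using this
  · intro w hw ω
    simp only [decide_eq_true_eq] at hw
    have h2 : ev 1 (join f ω (par s t c)) (Wd.red w) = c := by
      rw [hw]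
      simp [ev, evL, join, par]
    rw [h76.ev_red (by simp)] at h2
    rw [h2]; exact hc

/-- the unrestricted system -/
theorem ptF {m : ℕ} (hm : m = 2 ∨ m = 3 ∨ m = 4) (C : Finset G) (s t : G) :
    (univ.filter fun x : Fin m → G => ¬ ok C s t x).card ≤
      64 * (1 + (univ \ C).card) * Fintype.card G ^ (m - 1) := by
  have chk0 : ∀ m ∈ [2, 3, 4], Sys.lobls m (cwd [(m+1,true)] (fsys m) [(m+2,true)]) = some [] ∧
      (cwd [(m+1,true)] (fsys m) [(m+2,true)]).length ≤ 16 ∧
      (pcolsW [(m+1,true)] (fsys m) [(m+2,true)]).length ≤ 5 ∧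
      ∀ w ∈ pcolsW [(m+1,true)] (fsys m) [(m+2,true)], Wd.lin m (Wd.red w) = true := by
    decide +kernel
  have hm' : m ∈ [2, 3, 4] := by simpa using hm
  obtain ⟨h1, h2, h3, h4⟩ := chk0 m hm'
  have key := bad_bound h76.stmt_R1 h76.stmt_R2 m (fsys m) [(m+1,true)] [(m+2,true)] [] h1
    (par s t 1) C (by simp) (fun w hw => Or.inl (h4 w hw))
  have e : (univ.filter fun x : Fin m → G => ¬ ok C s t x) =
      (univ.filter fun ω : Fin m → G => ¬ okL C (ev 1 (join m ω (par s t 1)) [(m+1,true)])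
      ((fsys m).map (ev 1 (join m ω (par s t 1)))) (ev 1 (join m ω (par s t 1)) [(m+2,true)])) := by
    ext x
    simp only [mem_filter, mem_univ, true_and]
    rw [fsys_list]
    have e1 : ev 1 (join m x (par s t 1)) [(m+1,true)] = s := by
      have := ev_par m x (par s t 1) 0
      simpa [par] using this
    have e2 : ev 1 (join m x (par s t 1)) [(m+2,true)] = t := by
      have := ev_par m x (par s t 1) 1
      simpa [par] using this
    rw [e1, e2]; rfl
  rw [e]
  have hn : 0 < Fintype.card G := Fintype.card_pos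
  have hpow : Fintype.card G ^ m = Fintype.card G * Fintype.card G ^ (m - 1) := by
    rw [← pow_succ']; congr 1; omega
  rw [hpow] at key
  refine Nat.le_of_mul_le_mul_left (key.trans ?_) hn
  set L := (cwd [(m+1,true)] (fsys m) [(m+2,true)]).length
  set M := (pcolsW [(m+1,true)] (fsys m) [(m+2,true)]).length
  set X := Fintype.card G ^ (m - 1)
  have h6 : 2 * L * (1 + rtO (join m (fun _ => 1) (par s t 1)) []) + M * (univ \ C).card ≤
      64 * (1 + (univ \ C).card) := by
    have e0 : rtO (join m (fun _ => 1) (par s t 1)) [] = 0 := rfl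
    have e2 : M * (univ \ C).card ≤ 5 * (univ \ C).card := Nat.mul_le_mul_right _ h3
    rw [e0]
    omega
  calc _ ≤ 64 * (1 + (univ \ C).card) * (Fintype.card G * X) := Nat.mul_le_mul_right _ h6
    _ = _ := by ring

end pt

end Pool.OM.H59
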