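import Pool.Agent.Work.MP_8d2cba_co_helper59.Count

/-! MP_8d2cba_co: block INEQ (helper59). -/

set_option autoImplicit false
set_option linter.unusedSectionVars false

namespace Pool.OM.H59
open Finset Pool.OM

section gen

theorem sum_inj_le {α β : Type*} (S : Finset α) (T : Finset β) (φ : α → β)
    (hφ : ∀ a ∈ S, φ a ∈ T) (hinj : Set.InjOn φ S) (f : β → ℝ) (hf : ∀ b, 0 ≤ f b) :
    ∑ a ∈ S, f (φ a) ≤ ∑ b ∈ T, f b := by
  classical
  rw [← Finset.sum_image (f := f) (g := φ) (s := S) hinj]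
  apply Finset.sum_le_sum_of_subset_of_nonneg
  · intro b hb
    obtain ⟨a, ha, rfl⟩ := Finset.mem_image.1 hb
    exact hφ a ha
  · intro b _ _; exact hf b

end gen

section defs
variable {G : Type} [Group G] [Fintype G] [DecidableEq G]

/-- allowed paths -/
def pF (V C : Finset G) (s t : G) (m : ℕ) : Finset (Fin m → G) :=
  univ.filter fun x => (∀ j, x j ∈ V) ∧ ok C s t x

theorem pathsF_eq (V C : Finset G) (i : Idx G) :
    pathsF V C i = pF V C i.1 i.2.1 (i.2.2 - 1) := by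
  ext x
  simp only [pathsF, pF, mem_filter, mem_univ, true_and, ok, okL, List.nodup_ofFn]
  tauto

/-- value of a path -/
noncomputable def yval (yi : ℝ) (yV yC : G → ℝ) (s t : G) {m : ℕ} (x : Fin m → G) : ℝ :=
  yi + ∑ j, yV (x j) + ((pcols s (List.ofFn x) t).map yC).sum

/-- path with first two vertices `u`, `w` -/
def pc {g : ℕ} (u w : G) (ρ : Fin g → G) : Fin (g + 2) → G := Fin.cons u (Fin.cons w ρ)

theorem ofFn_pc {g : ℕ} (u w : G) (ρ : Fin g → G) :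
    List.ofFn (pc u w ρ) = u :: w :: List.ofFn ρ := by
  rw [List.ofFn_succ, List.ofFn_succ]
  simp [pc]

theorem pc_inj {g : ℕ} {u w u' w' : G} {ρ ρ' : Fin g → G} (h : pc u w ρ = pc u' w' ρ') :
    u = u' ∧ w = w' ∧ ρ = ρ' := by
  unfold pc at h
  have h1 := Fin.cons_injective2 h
  have h2 := Fin.cons_injective2 h1.2
  exact ⟨h1.1, h2.1, h2.2⟩

theorem pc_mem {g : ℕ} {V : Finset G} {u w : G} {ρ : Fin g → G} :
    (∀ j, pc u w ρ j ∈ V) ↔ u ∈ V ∧ w ∈ V ∧ ∀ j, ρ j ∈ V := by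
  unfold pc
  constructor
  · intro h
    refine ⟨by simpa using h 0, by simpa using h 1, fun j => by simpa using h j.succ.succ⟩
  · rintro ⟨h1, h2, h3⟩ j
    refine Fin.cases ?_ (fun j => ?_) j
    · simpa using h1
    · refine Fin.cases ?_ (fun j => ?_) j
      · simpa using h2
      · simpa using h3 j

theorem mem_pF_pc {g : ℕ} {V C : Finset G} {s t u w : G} {ρ : Fin g → G}
    (h : pc u w ρ ∈ pF V C s t (g + 2)) :
    u ∈ V ∧ w ∈ V ∧ (∀ j, ρ j ∈ V) ∧ s⁻¹ * u ∈ C ∧ u⁻¹ * w ∈ C := by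
  simp only [pF, mem_filter, mem_univ, true_and] at h
  obtain ⟨h1, h2, h3, h4⟩ := h
  rw [pc_mem] at h1
  rw [ofFn_pc] at h4
  exact ⟨h1.1, h1.2.1, h1.2.2, h4 _ (by simp [pcols]), h4 _ (by simp [pcols])⟩

theorem yval_pc {g : ℕ} (yi : ℝ) (yV yC : G → ℝ) (s t u w : G) (ρ : Fin g → G) :
    yval yi yV yC s t (pc u w ρ) = yi + (yV u + (yV w + ∑ j, yV (ρ j))) +
      (yC (s⁻¹ * u) + (yC (u⁻¹ * w) + ((pcols w (List.ofFn ρ) t).map yC).sum)) := by
  unfold yval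
  rw [ofFn_pc]
  simp only [pcols, Multiset.map_cons, Multiset.sum_cons]
  congr 2
  rw [Fin.sum_univ_succ, Fin.sum_univ_succ]
  simp [pc]

theorem colF_pc {g : ℕ} (s t u w : G) (ρ : Fin g → G) : colF s t (pc u w ρ) 1 = u⁻¹ * w := by
  have h := colF_mid s t (pc u w ρ) 0 (by omega)
  have e : (⟨0 + 1, by omega⟩ : Fin (g + 1 + 2)) = 1 := rfl
  rw [e] at h
  rw [h]
  rfl

/-- the good triples -/
def gd (C : Finset G) : Finset (G × G × G) :=
  (univ : Finset (G × G × G)).filter (fun t => t.1 ∈ C ∧ t.2.1 ∈ C ∧ t.2.2 ∈ C ∧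
        t.2.1 * t.1⁻¹ * t.2.2 ∈ C ∧ t.1 ≠ t.2.1 ∧ t.1 ≠ t.2.2 ∧ t.2.1 ≠ t.2.2 ∧
        t.2.1 * t.1⁻¹ * t.2.2 ≠ t.1)

/-- second difference -/
def Dl (Y : G → ℝ) (t : G × G × G) : ℝ :=
  |Y t.1 - Y t.2.1 - Y t.2.2 + Y (t.2.1 * t.1⁻¹ * t.2.2)|

def p1 {g : ℕ} (τ : G × G × G) (z : G × (Fin g → G)) : Fin (g + 2) → G :=
  pc (z.1 * τ.1⁻¹) z.1 z.2
def p2 {g : ℕ} (τ : G × G × G) (z : G × (Fin g → G)) : Fin (g + 2) → G :=
  pc (z.1 * τ.2.1⁻¹) z.1 z.2
def p3 {g : ℕ} (τ : G × G × G) (z : G × (Fin g → G)) : Fin (g + 2) → G :=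
  pc (z.1 * τ.1⁻¹) (z.1 * τ.1⁻¹ * τ.2.2) z.2
def p4 {g : ℕ} (τ : G × G × G) (z : G × (Fin g → G)) : Fin (g + 2) → G :=
  pc (z.1 * τ.2.1⁻¹) (z.1 * τ.1⁻¹ * τ.2.2) z.2

def FF (V C : Finset G) (s t : G) (g : ℕ) (τ : G × G × G) : Finset (G × (Fin g → G)) :=
  univ.filter fun z => p1 τ z ∈ pF V C s t (g + 2) ∧ p2 τ z ∈ pF V C s t (g + 2) ∧
    p3 τ z ∈ pF V C s t (g + 2) ∧ p4 τ z ∈ pF V C s t (g + 2)

theorem Dl_le {g : ℕ} (yi : ℝ) (yV yC : G → ℝ) (s t : G) (τ : G × G × G)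
    (z : G × (Fin g → G)) : Dl yC τ ≤ |yval yi yV yC s t (p1 τ z)| +
      |yval yi yV yC s t (p2 τ z)| + |yval yi yV yC s t (p3 τ z)| +
      |yval yi yV yC s t (p4 τ z)| := by
  have key : yC τ.1 - yC τ.2.1 - yC τ.2.2 + yC (τ.2.1 * τ.1⁻¹ * τ.2.2) =
      yval yi yV yC s t (p1 τ z) - yval yi yV yC s t (p2 τ z) -
      yval yi yV yC s t (p3 τ z) + yval yi yV yC s t (p4 τ z) := by
    unfold p1 p2 p3 p4
    simp only [yval_pc]
    have e1 : (z.1 * τ.1⁻¹)⁻¹ * z.1 = τ.1 := by group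
    have e2 : (z.1 * τ.2.1⁻¹)⁻¹ * z.1 = τ.2.1 := by group
    have e3 : (z.1 * τ.1⁻¹)⁻¹ * (z.1 * τ.1⁻¹ * τ.2.2) = τ.2.2 := by group
    have e4 : (z.1 * τ.2.1⁻¹)⁻¹ * (z.1 * τ.1⁻¹ * τ.2.2) = τ.2.1 * τ.1⁻¹ * τ.2.2 := by group
    rw [e1, e2, e3, e4]
    ring
  unfold Dl
  rw [key]
  refine (abs_add_le _ _).trans (add_le_add ?_ le_rfl)
  refine (abs_sub _ _).trans (add_le_add ?_ le_rfl)
  exact abs_sub _ _

/-- A1: double counting of quadruples -/
theorem A1 (g : ℕ) (V C : Finset G) (s t : G) (yi : ℝ) (yV yC : G → ℝ) :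
    ∑ τ ∈ gd C, Dl yC τ * ((FF V C s t g τ).card : ℝ) ≤
      4 * (V.card : ℝ) ^ 2 * ∑ x ∈ pF V C s t (g + 2), |yval yi yV yC s t x| := by
  set A := ∑ x ∈ pF V C s t (g + 2), |yval yi yV yC s t x| with hA
  set S : Finset ((G × G × G) × (G × (Fin g → G))) :=
    (gd C ×ˢ univ).filter fun a => a.2 ∈ FF V C s t g a.1 with hS
  set T : Finset ((Fin (g + 2) → G) × (G × G)) := pF V C s t (g + 2) ×ˢ (V ×ˢ V) with hT
  have hTsum : ∑ b ∈ T, |yval yi yV yC s t b.1| = (V.card : ℝ) ^ 2 * A := by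
    rw [hT, Finset.sum_product, hA, Finset.mul_sum]
    apply Finset.sum_congr rfl
    intro x _
    dsimp only
    rw [Finset.sum_const, Finset.card_product, nsmul_eq_mul]
    push_cast
    ring
  have hSum : ∀ F : (G × G × G) → (G × (Fin g → G)) → ℝ,
      ∑ τ ∈ gd C, ∑ z ∈ FF V C s t g τ, F τ z = ∑ a ∈ S, F a.1 a.2 := by
    intro F
    rw [hS, Finset.sum_filter, Finset.sum_product]
    apply Finset.sum_congr rfl
    intro τ _
    rw [← Finset.sum_filter]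
    simp
  have hmem : ∀ a ∈ S, a.1 ∈ gd C ∧ p1 a.1 a.2 ∈ pF V C s t (g + 2) ∧
      p2 a.1 a.2 ∈ pF V C s t (g + 2) ∧ p3 a.1 a.2 ∈ pF V C s t (g + 2) ∧
      p4 a.1 a.2 ∈ pF V C s t (g + 2) := by
    intro a ha
    rw [hS] at ha
    simp only [mem_filter, mem_product, mem_univ, and_true, FF, true_and] at ha
    exact ⟨ha.1, ha.2⟩
  have hk : ∀ (P : (G × G × G) → (G × (Fin g → G)) → (Fin (g + 2) → G))
      (e e' : (G × G × G) → (G × (Fin g → G)) → G),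
      (∀ a ∈ S, P a.1 a.2 ∈ pF V C s t (g + 2) ∧ e a.1 a.2 ∈ V ∧ e' a.1 a.2 ∈ V) →
      (∀ a a' : (G × G × G) × (G × (Fin g → G)), P a.1 a.2 = P a'.1 a'.2 →
        e a.1 a.2 = e a'.1 a'.2 → e' a.1 a.2 = e' a'.1 a'.2 → a = a') →
      ∑ a ∈ S, |yval yi yV yC s t (P a.1 a.2)| ≤ (V.card : ℝ) ^ 2 * A := by
    intro P e e' h1 h2
    rw [← hTsum]
    refine sum_inj_le S T (fun a => (P a.1 a.2, e a.1 a.2, e' a.1 a.2)) ?_ ?_
      (fun b => |yval yi yV yC s t b.1|) (fun b => abs_nonneg _)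
    · intro a ha
      simp only [hT, mem_product]
      exact h1 a ha
    · intro a _ a' _ h
      simp only [Prod.mk.injEq] at h
      exact h2 a a' h.1 h.2.1 h.2.2
  have b1 := hk (fun τ z => p1 τ z) (fun τ z => z.1 * τ.2.1⁻¹)
    (fun τ z => z.1 * τ.1⁻¹ * τ.2.2)
    (fun a ha => ⟨(hmem a ha).2.1, (mem_pF_pc (hmem a ha).2.2.1).1,
      (mem_pF_pc (hmem a ha).2.2.2.1).2.1⟩) (by
      rintro ⟨⟨p, q, r⟩, w, ρ⟩ ⟨⟨p', q', r'⟩, w', ρ'⟩ h1 h2 h3
      simp only [p1] at h1 h2 h3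
      obtain ⟨h4, rfl, rfl⟩ := pc_inj h1
      have h5 : p = p' := by simpa using h4
      subst h5
      have h6 : q = q' := by simpa using h2
      subst h6
      have h7 : r = r' := by simpa using h3
      subst h7
      rfl)
  have b2 := hk (fun τ z => p2 τ z) (fun τ z => z.1 * τ.1⁻¹)
    (fun τ z => z.1 * τ.1⁻¹ * τ.2.2)
    (fun a ha => ⟨(hmem a ha).2.2.1, (mem_pF_pc (hmem a ha).2.1).1,
      (mem_pF_pc (hmem a ha).2.2.2.1).2.1⟩) (by
      rintro ⟨⟨p, q, r⟩, w, ρ⟩ ⟨⟨p', q', r'⟩, w', ρ'⟩ h1 h2 h3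
      simp only [p2] at h1 h2 h3
      obtain ⟨h4, rfl, rfl⟩ := pc_inj h1
      have h5 : q = q' := by simpa using h4
      subst h5
      have h6 : p = p' := by simpa using h2
      subst h6
      have h7 : r = r' := by simpa using h3
      subst h7
      rfl)
  have b3 := hk (fun τ z => p3 τ z) (fun τ z => z.1) (fun τ z => z.1 * τ.2.1⁻¹)
    (fun a ha => ⟨(hmem a ha).2.2.2.1, (mem_pF_pc (hmem a ha).2.1).2.1,
      (mem_pF_pc (hmem a ha).2.2.1).1⟩) (by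
      rintro ⟨⟨p, q, r⟩, w, ρ⟩ ⟨⟨p', q', r'⟩, w', ρ'⟩ h1 h2 h3
      simp only [p3] at h1 h2 h3
      obtain ⟨h4, h4', rfl⟩ := pc_inj h1
      subst h2
      have h5 : p = p' := by simpa using h4
      subst h5
      have h6 : q = q' := by simpa using h3
      subst h6
      have h7 : r = r' := by simpa using h4'
      subst h7
      rfl)
  have b4 := hk (fun τ z => p4 τ z) (fun τ z => z.1) (fun τ z => z.1 * τ.1⁻¹)
    (fun a ha => ⟨(hmem a ha).2.2.2.2, (mem_pF_pc (hmem a ha).2.1).2.1,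
      (mem_pF_pc (hmem a ha).2.1).1⟩) (by
      rintro ⟨⟨p, q, r⟩, w, ρ⟩ ⟨⟨p', q', r'⟩, w', ρ'⟩ h1 h2 h3
      simp only [p4] at h1 h2 h3
      obtain ⟨h4, h4', rfl⟩ := pc_inj h1
      subst h2
      have h5 : p = p' := by simpa using h3
      subst h5
      have h6 : q = q' := by simpa using h4
      subst h6
      have h7 : r = r' := by simpa using h4'
      subst h7
      rfl)
  calc ∑ τ ∈ gd C, Dl yC τ * ((FF V C s t g τ).card : ℝ)
      = ∑ τ ∈ gd C, ∑ z ∈ FF V C s t g τ, Dl yC τ := by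
        apply Finset.sum_congr rfl
        intro τ _
        simp [mul_comm]
    _ ≤ ∑ τ ∈ gd C, ∑ z ∈ FF V C s t g τ, (|yval yi yV yC s t (p1 τ z)| +
      |yval yi yV yC s t (p2 τ z)| + |yval yi yV yC s t (p3 τ z)| +
      |yval yi yV yC s t (p4 τ z)|) :=
        Finset.sum_le_sum fun τ _ => Finset.sum_le_sum fun z _ => Dl_le yi yV yC s t τ z
    _ = ∑ a ∈ S, |yval yi yV yC s t (p1 a.1 a.2)| + ∑ a ∈ S, |yval yi yV yC s t (p2 a.1 a.2)| +
        ∑ a ∈ S, |yval yi yV yC s t (p3 a.1 a.2)| +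
        ∑ a ∈ S, |yval yi yV yC s t (p4 a.1 a.2)| := by
        rw [hSum]
        simp only [Finset.sum_add_distrib]
    _ ≤ 4 * (V.card : ℝ) ^ 2 * A := by linarith

/-- A2: lower bound for the number of quadruples -/
theorem A2 (g : ℕ) (hg : g + 2 = 2 ∨ g + 2 = 3 ∨ g + 2 = 4) (V C : Finset G)
    (h1C : (1 : G) ∉ C) (s t : G) (τ : G × G × G) (hτ : τ ∈ gd C) (T : ℕ)
    (hT : T ≤ (V.filter fun w => w * τ.1⁻¹ ∈ V ∧ w * τ.2.1⁻¹ ∈ V ∧
      w * (τ.1⁻¹ * τ.2.2) ∈ V).card) (R : ℕ)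
    (hR : ∀ c ∈ ({τ.1, τ.2.1, τ.2.2, τ.2.1 * τ.1⁻¹ * τ.2.2} : Finset G),
      rt (s * c * t⁻¹) + rt (s * c⁻¹ * t⁻¹) ≤ R) :
    T * V.card ^ g ≤ (FF V C s t g τ).card +
      4 * (64 * (1 + (univ \ C).card + R) * Fintype.card G ^ g) := by
  simp only [gd, mem_filter, mem_univ, true_and] at hτ
  set W := V.filter fun w => w * τ.1⁻¹ ∈ V ∧ w * τ.2.1⁻¹ ∈ V ∧ w * (τ.1⁻¹ * τ.2.2) ∈ V with hW
  set Z : Finset (G × (Fin g → G)) := W ×ˢ Fintype.piFinset fun _ => V with hZ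
  have hZc : Z.card = W.card * V.card ^ g := by
    rw [hZ, Finset.card_product, Fintype.card_piFinset]
    simp
  have hbad : ∀ (P : (G × (Fin g → G)) → (Fin (g + 2) → G)) (c : G), c ∈ C →
      rt (s * c * t⁻¹) + rt (s * c⁻¹ * t⁻¹) ≤ R →
      (∀ z, colF s t (P z) 1 = c) → Function.Injective P →
      (univ.filter fun z : G × (Fin g → G) => ¬ ok C s t (P z)).card ≤
        64 * (1 + (univ \ C).card + R) * Fintype.card G ^ g := by
    intro P c hc hRc h1 h2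
    have h3 := ptC hg C h1C s t c hc (1 : Fin (g + 2 + 1))
    have e : g + 2 - 2 = g := by omega
    rw [e] at h3
    refine le_trans ?_ (h3.trans ?_)
    · refine Finset.card_le_card_of_injOn P ?_ (h2.injOn)
      intro z hz
      simp only [coe_filter, mem_univ, true_and, Set.mem_ofPred_eq] at hz ⊢
      exact ⟨h1 z, hz⟩
    · apply Nat.mul_le_mul_right
      apply Nat.mul_le_mul_left
      omega
  have i1 : Function.Injective (fun z : G × (Fin g → G) => p1 τ z) := by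
    rintro ⟨w, ρ⟩ ⟨w', ρ'⟩ h
    obtain ⟨_, h2, h3⟩ := pc_inj h
    simp only at h2 h3
    rw [h2, h3]
  have i2 : Function.Injective (fun z : G × (Fin g → G) => p2 τ z) := by
    rintro ⟨w, ρ⟩ ⟨w', ρ'⟩ h
    obtain ⟨_, h2, h3⟩ := pc_inj h
    simp only at h2 h3
    rw [h2, h3]
  have i3 : Function.Injective (fun z : G × (Fin g → G) => p3 τ z) := by
    rintro ⟨w, ρ⟩ ⟨w', ρ'⟩ h
    obtain ⟨h2, _, h3⟩ := pc_inj h
    simp only [mul_left_inj] at h2 h3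
    rw [h2, h3]
  have i4 : Function.Injective (fun z : G × (Fin g → G) => p4 τ z) := by
    rintro ⟨w, ρ⟩ ⟨w', ρ'⟩ h
    obtain ⟨h2, _, h3⟩ := pc_inj h
    simp only [mul_left_inj] at h2 h3
    rw [h2, h3]
  have b1 := hbad (fun z => p1 τ z) τ.1 hτ.1 (hR _ (by simp)) (fun z => by
    simp only [p1]; rw [colF_pc]; group) i1
  have b2 := hbad (fun z => p2 τ z) τ.2.1 hτ.2.1 (hR _ (by simp)) (fun z => by
    simp only [p2]; rw [colF_pc]; group) i2
  have b3 := hbad (fun z => p3 τ z) τ.2.2 hτ.2.2.1 (hR _ (by simp)) (fun z => by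
    simp only [p3]; rw [colF_pc]; group) i3
  have b4 := hbad (fun z => p4 τ z) (τ.2.1 * τ.1⁻¹ * τ.2.2) hτ.2.2.2.1 (hR _ (by simp))
    (fun z => by simp only [p4]; rw [colF_pc]; group) i4
  have hsub : Z ⊆ FF V C s t g τ ∪
      ((univ.filter fun z : G × (Fin g → G) => ¬ ok C s t (p1 τ z)) ∪
      ((univ.filter fun z : G × (Fin g → G) => ¬ ok C s t (p2 τ z)) ∪
      ((univ.filter fun z : G × (Fin g → G) => ¬ ok C s t (p3 τ z)) ∪
      (univ.filter fun z : G × (Fin g → G) => ¬ ok C s t (p4 τ z))))) := by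
    intro z hz
    by_contra hcon
    simp only [mem_union, mem_filter, mem_univ, true_and, not_or, not_not] at hcon
    obtain ⟨h0, h1, h2, h3, h4⟩ := hcon
    apply h0
    simp only [hZ, mem_product, hW, mem_filter, Fintype.mem_piFinset] at hz
    obtain ⟨⟨hw, hw1, hw2, hw3⟩, hρ⟩ := hz
    rw [← mul_assoc] at hw3
    simp only [FF, pF, mem_filter, mem_univ, true_and]
    exact ⟨⟨pc_mem.2 ⟨hw1, hw, hρ⟩, h1⟩, ⟨pc_mem.2 ⟨hw2, hw, hρ⟩, h2⟩,
      ⟨pc_mem.2 ⟨hw1, hw3, hρ⟩, h3⟩, ⟨pc_mem.2 ⟨hw2, hw3, hρ⟩, h4⟩⟩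
  have hcard := Finset.card_le_card hsub
  have u1 := Finset.card_union_le (FF V C s t g τ)
      ((univ.filter fun z : G × (Fin g → G) => ¬ ok C s t (p1 τ z)) ∪
      ((univ.filter fun z : G × (Fin g → G) => ¬ ok C s t (p2 τ z)) ∪
      ((univ.filter fun z : G × (Fin g → G) => ¬ ok C s t (p3 τ z)) ∪
      (univ.filter fun z : G × (Fin g → G) => ¬ ok C s t (p4 τ z)))))
  have u2 := Finset.card_union_le
      (univ.filter fun z : G × (Fin g → G) => ¬ ok C s t (p1 τ z))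
      ((univ.filter fun z : G × (Fin g → G) => ¬ ok C s t (p2 τ z)) ∪
      ((univ.filter fun z : G × (Fin g → G) => ¬ ok C s t (p3 τ z)) ∪
      (univ.filter fun z : G × (Fin g → G) => ¬ ok C s t (p4 τ z))))
  have u3 := Finset.card_union_le
      (univ.filter fun z : G × (Fin g → G) => ¬ ok C s t (p2 τ z))
      ((univ.filter fun z : G × (Fin g → G) => ¬ ok C s t (p3 τ z)) ∪
      (univ.filter fun z : G × (Fin g → G) => ¬ ok C s t (p4 τ z)))
  have u4 := Finset.card_union_le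
      (univ.filter fun z : G × (Fin g → G) => ¬ ok C s t (p3 τ z))
      (univ.filter fun z : G × (Fin g → G) => ¬ ok C s t (p4 τ z))
  have hTW : T * V.card ^ g ≤ Z.card := by
    rw [hZc]; exact Nat.mul_le_mul_right _ hT
  omega

/-- number of completions of both `u` and `u'` -/
def NN (V C : Finset G) (s t : G) (g : ℕ) (u u' : G) : Finset (G × (Fin g → G)) :=
  univ.filter fun z => pc u z.1 z.2 ∈ pF V C s t (g + 2) ∧ pc u' z.1 z.2 ∈ pF V C s t (g + 2)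

theorem V1 (g : ℕ) (V C : Finset G) (s t : G) (yi : ℝ) (yV yC : G → ℝ) (κ : ℝ) :
    ∑ u ∈ V, ∑ u' ∈ V, |yV u - yV u'| * ((NN V C s t g u u').card : ℝ) ≤
      2 * (V.card : ℝ) * ∑ x ∈ pF V C s t (g + 2), |yval yi yV yC s t x| +
      4 * (V.card : ℝ) ^ (g + 2) * ∑ c ∈ C, |yC c - κ| := by
  set A := ∑ x ∈ pF V C s t (g + 2), |yval yi yV yC s t x| with hA
  set E := ∑ c ∈ C, |yC c - κ| with hE
  set S : Finset ((G × G) × (G × (Fin g → G))) :=
    ((V ×ˢ V) ×ˢ univ).filter fun a => a.2 ∈ NN V C s t g a.1.1 a.1.2 with hS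
  have hSum : ∀ F : G → G → (G × (Fin g → G)) → ℝ,
      ∑ u ∈ V, ∑ u' ∈ V, ∑ z ∈ NN V C s t g u u', F u u' z = ∑ a ∈ S, F a.1.1 a.1.2 a.2 := by
    intro F
    rw [hS, Finset.sum_filter, Finset.sum_product, Finset.sum_product]
    apply Finset.sum_congr rfl
    intro u _
    apply Finset.sum_congr rfl
    intro u' _
    rw [← Finset.sum_filter]
    simp
  have hmem : ∀ a ∈ S, pc a.1.1 a.2.1 a.2.2 ∈ pF V C s t (g + 2) ∧
      pc a.1.2 a.2.1 a.2.2 ∈ pF V C s t (g + 2) := by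
    intro a ha
    rw [hS] at ha
    simp only [mem_filter, mem_product, mem_univ, and_true, NN, true_and] at ha
    exact ha.2
  -- y terms
  set T : Finset ((Fin (g + 2) → G) × G) := pF V C s t (g + 2) ×ˢ V with hT
  have hTsum : ∑ b ∈ T, |yval yi yV yC s t b.1| = (V.card : ℝ) * A := by
    rw [hT, Finset.sum_product, hA, Finset.mul_sum]
    apply Finset.sum_congr rfl
    intro x _
    dsimp only
    rw [Finset.sum_const, nsmul_eq_mul]
  have y1 : ∑ a ∈ S, |yval yi yV yC s t (pc a.1.1 a.2.1 a.2.2)| ≤ (V.card : ℝ) * A := by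
    rw [← hTsum]
    refine sum_inj_le S T (fun a => (pc a.1.1 a.2.1 a.2.2, a.1.2)) ?_ ?_
      (fun b => |yval yi yV yC s t b.1|) (fun b => abs_nonneg _)
    · intro a ha
      simp only [hT, mem_product]
      exact ⟨(hmem a ha).1, (mem_pF_pc (hmem a ha).2).1⟩
    · rintro ⟨⟨u, u'⟩, w, ρ⟩ _ ⟨⟨v, v'⟩, w', ρ'⟩ _ h
      simp only [Prod.mk.injEq] at h
      obtain ⟨h1, rfl, rfl⟩ := pc_inj h.1
      rw [h1, h.2]
  have y2 : ∑ a ∈ S, |yval yi yV yC s t (pc a.1.2 a.2.1 a.2.2)| ≤ (V.card : ℝ) * A := by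
    rw [← hTsum]
    refine sum_inj_le S T (fun a => (pc a.1.2 a.2.1 a.2.2, a.1.1)) ?_ ?_
      (fun b => |yval yi yV yC s t b.1|) (fun b => abs_nonneg _)
    · intro a ha
      simp only [hT, mem_product]
      exact ⟨(hmem a ha).2, (mem_pF_pc (hmem a ha).1).1⟩
    · rintro ⟨⟨u, u'⟩, w, ρ⟩ _ ⟨⟨v, v'⟩, w', ρ'⟩ _ h
      simp only [Prod.mk.injEq] at h
      obtain ⟨h1, rfl, rfl⟩ := pc_inj h.1
      rw [h1, h.2]
  -- colour terms
  set U : Finset (G × (G × (G × (Fin g → G)))) :=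
    C ×ˢ (V ×ˢ (V ×ˢ Fintype.piFinset fun _ => V)) with hU
  have hUsum : ∑ b ∈ U, |yC b.1 - κ| = (V.card : ℝ) ^ (g + 2) * E := by
    rw [hU, Finset.sum_product, hE, Finset.mul_sum]
    apply Finset.sum_congr rfl
    intro x _
    dsimp only
    rw [Finset.sum_const, nsmul_eq_mul]
    simp only [Finset.card_product, Fintype.card_piFinset, prod_const, card_univ,
      Fintype.card_fin]
    push_cast
    ring
  have hc : ∀ (e e' : (G × G) → G → G), (∀ a ∈ S, e a.1 a.2.1 ∈ C ∧ e' a.1 a.2.1 ∈ V) →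
      (∀ a a' : G × G, ∀ w, e a w = e a' w → e' a w = e' a' w → a = a') →
      ∑ a ∈ S, |yC (e a.1 a.2.1) - κ| ≤ (V.card : ℝ) ^ (g + 2) * E := by
    intro e e' h1 h2
    rw [← hUsum]
    refine sum_inj_le S U (fun a => (e a.1 a.2.1, e' a.1 a.2.1, a.2.1, a.2.2)) ?_ ?_
      (fun b => |yC b.1 - κ|) (fun b => abs_nonneg _)
    · intro a ha
      simp only [hU, mem_product, Fintype.mem_piFinset]
      have h3 := mem_pF_pc (hmem a ha).1
      exact ⟨(h1 a ha).1, (h1 a ha).2, h3.2.1, h3.2.2.1⟩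
    · rintro ⟨b, w, ρ⟩ _ ⟨b', w', ρ'⟩ _ h
      simp only [Prod.mk.injEq] at h
      obtain ⟨h3, h4, rfl, rfl⟩ := h
      rw [h2 b b' w h3 h4]
  have c1 := hc (fun b _ => s⁻¹ * b.1) (fun b _ => b.2)
    (fun a ha => ⟨(mem_pF_pc (hmem a ha).1).2.2.2.1, (mem_pF_pc (hmem a ha).2).1⟩) (by
      rintro ⟨u, u'⟩ ⟨v, v'⟩ w h1 h2
      simp only [mul_right_inj] at h1 h2
      rw [h1, h2])
  have c2 := hc (fun b _ => s⁻¹ * b.2) (fun b _ => b.1)
    (fun a ha => ⟨(mem_pF_pc (hmem a ha).2).2.2.2.1, (mem_pF_pc (hmem a ha).1).1⟩) (by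
      rintro ⟨u, u'⟩ ⟨v, v'⟩ w h1 h2
      simp only [mul_right_inj] at h1 h2
      rw [h1, h2])
  have c3 := hc (fun b w => b.1⁻¹ * w) (fun b _ => b.2)
    (fun a ha => ⟨(mem_pF_pc (hmem a ha).1).2.2.2.2, (mem_pF_pc (hmem a ha).2).1⟩) (by
      rintro ⟨u, u'⟩ ⟨v, v'⟩ w h1 h2
      simp only [mul_left_inj, inv_inj] at h1 h2
      rw [h1, h2])
  have c4 := hc (fun b w => b.2⁻¹ * w) (fun b _ => b.1)
    (fun a ha => ⟨(mem_pF_pc (hmem a ha).2).2.2.2.2, (mem_pF_pc (hmem a ha).1).1⟩) (by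
      rintro ⟨u, u'⟩ ⟨v, v'⟩ w h1 h2
      simp only [mul_left_inj, inv_inj] at h1 h2
      rw [h1, h2])
  have hpt : ∀ (u u' : G) (z : G × (Fin g → G)), |yV u - yV u'| ≤
      |yval yi yV yC s t (pc u z.1 z.2)| + |yval yi yV yC s t (pc u' z.1 z.2)| +
      |yC (s⁻¹ * u) - κ| + |yC (s⁻¹ * u') - κ| + |yC (u⁻¹ * z.1) - κ| +
      |yC (u'⁻¹ * z.1) - κ| := by
    intro u u' z
    have key : yV u - yV u' = yval yi yV yC s t (pc u z.1 z.2) -
        yval yi yV yC s t (pc u' z.1 z.2) - (yC (s⁻¹ * u) - κ) + (yC (s⁻¹ * u') - κ) -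
        (yC (u⁻¹ * z.1) - κ) + (yC (u'⁻¹ * z.1) - κ) := by
      simp only [yval_pc]; ring
    rw [key]
    refine (abs_add_le _ _).trans (add_le_add ?_ le_rfl)
    refine (abs_sub _ _).trans (add_le_add ?_ le_rfl)
    refine (abs_add_le _ _).trans (add_le_add ?_ le_rfl)
    refine (abs_sub _ _).trans (add_le_add ?_ le_rfl)
    exact abs_sub _ _
  calc ∑ u ∈ V, ∑ u' ∈ V, |yV u - yV u'| * ((NN V C s t g u u').card : ℝ)
      = ∑ u ∈ V, ∑ u' ∈ V, ∑ z ∈ NN V C s t g u u', |yV u - yV u'| := by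
        apply Finset.sum_congr rfl
        intro u _
        apply Finset.sum_congr rfl
        intro u' _
        simp [mul_comm]
    _ ≤ ∑ u ∈ V, ∑ u' ∈ V, ∑ z ∈ NN V C s t g u u', (|yval yi yV yC s t (pc u z.1 z.2)| +
        |yval yi yV yC s t (pc u' z.1 z.2)| + |yC (s⁻¹ * u) - κ| + |yC (s⁻¹ * u') - κ| +
        |yC (u⁻¹ * z.1) - κ| + |yC (u'⁻¹ * z.1) - κ|) :=
        Finset.sum_le_sum fun u _ => Finset.sum_le_sum fun u' _ =>
          Finset.sum_le_sum fun z _ => hpt u u' z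
    _ = ∑ a ∈ S, |yval yi yV yC s t (pc a.1.1 a.2.1 a.2.2)| +
        ∑ a ∈ S, |yval yi yV yC s t (pc a.1.2 a.2.1 a.2.2)| +
        ∑ a ∈ S, |yC (s⁻¹ * a.1.1) - κ| + ∑ a ∈ S, |yC (s⁻¹ * a.1.2) - κ| +
        ∑ a ∈ S, |yC (a.1.1⁻¹ * a.2.1) - κ| + ∑ a ∈ S, |yC (a.1.2⁻¹ * a.2.1) - κ| := by
        rw [hSum]
        simp only [Finset.sum_add_distrib]
    _ ≤ 2 * (V.card : ℝ) * A + 4 * (V.card : ℝ) ^ (g + 2) * E := by linarith

theorem V2 (g : ℕ) (V C : Finset G) (s t : G) (u u' : G) (hu : u ∈ V) (hu' : u' ∈ V) :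
    V.card ^ (g + 1) ≤ (NN V C s t g u u').card +
      ((univ.filter fun x : Fin (g + 2) → G => x 0 = u ∧ ¬ ok C s t x).card +
      (univ.filter fun x : Fin (g + 2) → G => x 0 = u' ∧ ¬ ok C s t x).card) := by
  set Z : Finset (G × (Fin g → G)) := V ×ˢ Fintype.piFinset fun _ => V with hZ
  have hZc : Z.card = V.card ^ (g + 1) := by
    rw [hZ, Finset.card_product, Fintype.card_piFinset]
    simp [pow_succ, mul_comm]
  have hbad : ∀ u : G, (univ.filter fun z : G × (Fin g → G) => ¬ ok C s t (pc u z.1 z.2)).card ≤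
      (univ.filter fun x : Fin (g + 2) → G => x 0 = u ∧ ¬ ok C s t x).card := by
    intro u
    refine Finset.card_le_card_of_injOn (fun z => pc u z.1 z.2) ?_ ?_
    · intro z hz
      simp only [coe_filter, mem_univ, true_and, Set.mem_ofPred_eq] at hz ⊢
      exact ⟨by simp [pc], hz⟩
    · rintro ⟨w, ρ⟩ _ ⟨w', ρ'⟩ _ h
      obtain ⟨_, h2, h3⟩ := pc_inj h
      simp only at h2 h3
      rw [h2, h3]
  have hsub : Z ⊆ NN V C s t g u u' ∪
      ((univ.filter fun z : G × (Fin g → G) => ¬ ok C s t (pc u z.1 z.2)) ∪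
      (univ.filter fun z : G × (Fin g → G) => ¬ ok C s t (pc u' z.1 z.2))) := by
    intro z hz
    by_contra hcon
    simp only [mem_union, mem_filter, mem_univ, true_and, not_or, not_not] at hcon
    obtain ⟨h0, h1, h2⟩ := hcon
    apply h0
    simp only [hZ, mem_product, Fintype.mem_piFinset] at hz
    simp only [NN, pF, mem_filter, mem_univ, true_and]
    exact ⟨⟨pc_mem.2 ⟨hu, hz.1, hz.2⟩, h1⟩, ⟨pc_mem.2 ⟨hu', hz.1, hz.2⟩, h2⟩⟩
  have h1 := Finset.card_le_card hsub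
  have h2 := Finset.card_union_le (NN V C s t g u u')
      ((univ.filter fun z : G × (Fin g → G) => ¬ ok C s t (pc u z.1 z.2)) ∪
      (univ.filter fun z : G × (Fin g → G) => ¬ ok C s t (pc u' z.1 z.2)))
  have h3 := Finset.card_union_le
      (univ.filter fun z : G × (Fin g → G) => ¬ ok C s t (pc u z.1 z.2))
      (univ.filter fun z : G × (Fin g → G) => ¬ ok C s t (pc u' z.1 z.2))
  have h4 := hbad u
  have h5 := hbad u'
  omega

theorem rt_inv (a : G) : rt a⁻¹ = rt a := by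
  unfold rt
  refine Finset.card_bij' (fun x _ => x⁻¹) (fun x _ => x⁻¹) ?_ ?_ ?_ ?_
  · intro x hx
    simp only [mem_filter, mem_univ, true_and] at hx ⊢
    rw [← mul_inv_rev, hx, inv_inv]
  · intro x hx
    simp only [mem_filter, mem_univ, true_and] at hx ⊢
    rw [← mul_inv_rev, hx]
  · intro x _; simp
  · intro x _; simp

theorem rt_c1 (s t c : G) : rt (s * c * t⁻¹) = rt (s⁻¹ * t * c⁻¹) := by
  have h1 := h76.rt_conj (s * c * t⁻¹) (s⁻¹)
  have h2 : s⁻¹ * (s * c * t⁻¹) * s⁻¹⁻¹ = (s⁻¹ * t * c⁻¹)⁻¹ := by group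
  rw [← h1, h2, rt_inv]

theorem rt_c2 (s t c : G) : rt (s * c⁻¹ * t⁻¹) = rt (s⁻¹ * t * c) := by
  have := rt_c1 s t c⁻¹
  rwa [inv_inv] at this

theorem sum_rt : ∑ g : G, rt g = Fintype.card G := by
  unfold rt
  have h := Finset.card_eq_sum_card_fiberwise (s := (univ : Finset G)) (t := univ)
    (f := fun x : G => x * x) (fun _ _ => by simp)
  rw [Finset.card_univ] at h
  exact h.symm

/-- sums over an injective family -/
theorem sum_rt_inj {α : Type*} (I : Finset α) (φ : α → G) (hφ : Set.InjOn φ (I : Set α)) :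
    ∑ i ∈ I, rt (φ i) ≤ Fintype.card G := by
  classical
  rw [← Finset.sum_image (f := fun g : G => rt g) (g := φ) hφ]
  rw [← sum_rt (G := G)]
  exact Finset.sum_le_sum_of_subset (Finset.subset_univ _)

end defs

end Pool.OM.H59
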