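import Pool.Agent.Work.MP_8d2cba_co_helper59.INEQ

/-! MP_8d2cba_co: block INEQ, assembly (helper59). -/

set_option autoImplicit false
set_option linter.unusedSectionVars false

namespace Pool.OM.H59
open Finset Pool.OM

section a
variable {G : Type} [Group G] [Fintype G] [DecidableEq G]

/-- the four colours -/
def Q4 (τ : G × G × G) : Finset G := {τ.1, τ.2.1, τ.2.2, τ.2.1 * τ.1⁻¹ * τ.2.2}

def RR (s t : G) (τ : G × G × G) : ℕ := ∑ c ∈ Q4 τ, (rt (s * c * t⁻¹) + rt (s * c⁻¹ * t⁻¹))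

theorem pow_ratio (n v : ℝ) (hn : 0 < n) (hv : n ≤ 3 * v) (g : ℕ) (hg : g ≤ 2) :
    n ^ g / v ^ (g + 2) ≤ 81 / n ^ 2 := by
  have hvpos : 0 < v := by linarith
  rw [div_le_div_iff₀ (by positivity) (by positivity)]
  have h1 : n ^ g * n ^ 2 = n ^ (g + 2) := by rw [← pow_add]
  rw [h1]
  calc n ^ (g + 2) ≤ (3 * v) ^ (g + 2) := pow_le_pow_left₀ hn.le hv _
    _ = 3 ^ (g + 2) * v ^ (g + 2) := by rw [mul_pow]
    _ ≤ 81 * v ^ (g + 2) := by
      apply mul_le_mul_of_nonneg_right _ (by positivity)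
      interval_cases g <;> norm_num

theorem A3 {m : ℕ} (hm : m = 2 ∨ m = 3 ∨ m = 4) (V C : Finset G) (h1C : (1 : G) ∉ C) (s t : G)
    (yi : ℝ) (yV yC : G → ℝ) (hv : Fintype.card G ≤ 3 * V.card)
    (q3 : ∀ a b c : G, a ≠ 1 → b ≠ 1 → c ≠ 1 → a ≠ b → a ≠ c → b ≠ c →
      Fintype.card G ≤ 10 * (V.filter fun x => x * a ∈ V ∧ x * b ∈ V ∧ x * c ∈ V).card) :
    ∑ τ ∈ gd C, Dl yC τ * (1 / (10 * (Fintype.card G : ℝ)) -
      20736 * ((1 + (univ \ C).card + RR s t τ : ℕ) : ℝ) / (Fintype.card G : ℝ) ^ 2) ≤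
      4 * (Fintype.card G : ℝ) ^ 2 *
        ((∑ x ∈ pF V C s t m, |yval yi yV yC s t x|) / (V.card : ℝ) ^ m) := by
  obtain ⟨g, rfl⟩ : ∃ g, m = g + 2 := ⟨m - 2, by omega⟩
  have hg : g ≤ 2 := by omega
  set n : ℝ := (Fintype.card G : ℝ) with hn
  set v : ℝ := (V.card : ℝ) with hvdef
  have hnpos : 0 < n := by rw [hn]; exact_mod_cast Fintype.card_pos
  have hv' : n ≤ 3 * v := by rw [hn, hvdef]; exact_mod_cast hv
  have hvpos : 0 < v := by linarith
  have hvn : v ≤ n := by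
    rw [hn, hvdef]; exact_mod_cast Finset.card_le_univ V
  set A := ∑ x ∈ pF V C s t (g + 2), |yval yi yV yC s t x| with hA
  have hA0 : 0 ≤ A := Finset.sum_nonneg fun _ _ => abs_nonneg _
  have h1 := A1 g V C s t yi yV yC
  have hpt : ∀ τ ∈ gd C, Dl yC τ * (1 / (10 * n) -
      20736 * ((1 + (univ \ C).card + RR s t τ : ℕ) : ℝ) / n ^ 2) ≤
      Dl yC τ * (((FF V C s t g τ).card : ℝ) / v ^ (g + 2)) := by
    intro τ hτ
    have hD : 0 ≤ Dl yC τ := abs_nonneg _
    apply mul_le_mul_of_nonneg_left _ hD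
    have hτ' := hτ
    simp only [gd, mem_filter, mem_univ, true_and] at hτ'
    obtain ⟨hp, hq, hr, hqr, hpq, hpr, _, _⟩ := hτ'
    set T := (V.filter fun w => w * τ.1⁻¹ ∈ V ∧ w * τ.2.1⁻¹ ∈ V ∧
      w * (τ.1⁻¹ * τ.2.2) ∈ V).card with hTdef
    have hne : ∀ c ∈ C, c ≠ 1 := fun c hc h => h1C (h ▸ hc)
    have hT : Fintype.card G ≤ 10 * T := by
      apply q3
      · simpa using hne _ hp
      · simpa using hne _ hq
      · intro h
        exact hpr (inv_mul_eq_one.1 h)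
      · simpa using hpq
      · intro h
        apply hne _ hr
        exact mul_eq_left.1 h.symm
      · intro h
        apply hne _ hqr
        rw [mul_assoc, ← h, mul_inv_cancel]
    have h2 := A2 g (by omega) V C h1C s t τ hτ T le_rfl (RR s t τ) (by
      intro c hc
      unfold RR Q4
      exact Finset.single_le_sum (f := fun c => rt (s * c * t⁻¹) + rt (s * c⁻¹ * t⁻¹))
        (fun _ _ => Nat.zero_le _) hc)
    have hT' : n ≤ 10 * (T : ℝ) := by rw [hn]; exact_mod_cast hT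
    have h2' : (T : ℝ) * v ^ g ≤ ((FF V C s t g τ).card : ℝ) +
        4 * (64 * ((1 + (univ \ C).card + RR s t τ : ℕ) : ℝ) * n ^ g) := by
      rw [hn, hvdef]; exact_mod_cast h2
    set X : ℝ := ((1 + (univ \ C).card + RR s t τ : ℕ) : ℝ) with hX
    have hX0 : 0 ≤ X := by rw [hX]; positivity
    have h3 : ((T : ℝ) * v ^ g - 256 * X * n ^ g) / v ^ (g + 2) ≤
        ((FF V C s t g τ).card : ℝ) / v ^ (g + 2) := by
      apply div_le_div_of_nonneg_right _ (by positivity)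
      linarith
    refine le_trans ?_ h3
    have h4 : ((T : ℝ) * v ^ g - 256 * X * n ^ g) / v ^ (g + 2) =
        (T : ℝ) / v ^ 2 - 256 * X * (n ^ g / v ^ (g + 2)) := by
      rw [pow_add]
      field_simp
    rw [h4]
    have h5 : 1 / (10 * n) ≤ (T : ℝ) / v ^ 2 := by
      rw [div_le_div_iff₀ (by positivity) (by positivity)]
      have : v ^ 2 ≤ n ^ 2 := by nlinarith
      nlinarith
    have h6 : 256 * X * (n ^ g / v ^ (g + 2)) ≤ 256 * X * (81 / n ^ 2) :=
      mul_le_mul_of_nonneg_left (pow_ratio n v hnpos hv' g hg) (by positivity)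
    have h7 : 256 * X * (81 / n ^ 2) = 20736 * X / n ^ 2 := by ring
    linarith
  calc _ ≤ ∑ τ ∈ gd C, Dl yC τ * (((FF V C s t g τ).card : ℝ) / v ^ (g + 2)) :=
        Finset.sum_le_sum hpt
    _ = (∑ τ ∈ gd C, Dl yC τ * ((FF V C s t g τ).card : ℝ)) / v ^ (g + 2) := by
        rw [Finset.sum_div]
        exact Finset.sum_congr rfl fun _ _ => by ring
    _ ≤ (4 * v ^ 2 * A) / v ^ (g + 2) := div_le_div_of_nonneg_right h1 (by positivity)
    _ = 4 * v ^ 2 * (A / v ^ (g + 2)) := by ring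
    _ ≤ 4 * n ^ 2 * (A / v ^ (g + 2)) := by
        apply mul_le_mul_of_nonneg_right _ (by positivity)
        nlinarith

theorem B3 {m : ℕ} (hm : m = 2 ∨ m = 3 ∨ m = 4) (V C : Finset G) (s t : G)
    (yi : ℝ) (yV yC : G → ℝ) (κ : ℝ) (hv : Fintype.card G ≤ 3 * V.card) :
    ∑ u ∈ V, ∑ u' ∈ V, |yV u - yV u'| * (1 / (V.card : ℝ) -
      (5184 * ((1 + (univ \ C).card + (rt (s * u⁻¹) + rt (u * t⁻¹)) : ℕ) : ℝ) /
        (Fintype.card G : ℝ) ^ 2 + 81 * (if s⁻¹ * u ∈ C then 0 else 1) / (Fintype.card G : ℝ)) -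
      (5184 * ((1 + (univ \ C).card + (rt (s * u'⁻¹) + rt (u' * t⁻¹)) : ℕ) : ℝ) /
        (Fintype.card G : ℝ) ^ 2 + 81 * (if s⁻¹ * u' ∈ C then 0 else 1) / (Fintype.card G : ℝ))) ≤
      2 * (V.card : ℝ) * ((∑ x ∈ pF V C s t m, |yval yi yV yC s t x|) / (V.card : ℝ) ^ m) +
      4 * ∑ c ∈ C, |yC c - κ| := by
  obtain ⟨g, rfl⟩ : ∃ g, m = g + 2 := ⟨m - 2, by omega⟩
  have hg : g ≤ 2 := by omega
  set n : ℝ := (Fintype.card G : ℝ) with hn
  set v : ℝ := (V.card : ℝ) with hvdef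
  have hnpos : 0 < n := by rw [hn]; exact_mod_cast Fintype.card_pos
  have hv' : n ≤ 3 * v := by rw [hn, hvdef]; exact_mod_cast hv
  have hvpos : 0 < v := by linarith
  have h1 := V1 g V C s t yi yV yC κ
  set A := ∑ x ∈ pF V C s t (g + 2), |yval yi yV yC s t x| with hA
  set E := ∑ c ∈ C, |yC c - κ| with hE
  have hbad : ∀ u : G, ((univ.filter fun x : Fin (g + 2) → G => x 0 = u ∧
      ¬ ok C s t x).card : ℝ) / v ^ (g + 2) ≤
      (5184 * ((1 + (univ \ C).card + (rt (s * u⁻¹) + rt (u * t⁻¹)) : ℕ) : ℝ) / n ^ 2 +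
        81 * (if s⁻¹ * u ∈ C then 0 else 1) / n) := by
    intro u
    by_cases hu : s⁻¹ * u ∈ C
    · have h2 := ptV (m := g + 2) (by omega) C s t u 0 (fun _ => hu) (fun h => by
        simp at h)
      have e : g + 2 - 2 = g := by omega
      rw [e] at h2
      have h2' : ((univ.filter fun x : Fin (g + 2) → G => x 0 = u ∧ ¬ ok C s t x).card : ℝ) ≤
          64 * ((1 + (univ \ C).card + (rt (s * u⁻¹) + rt (u * t⁻¹)) : ℕ) : ℝ) * n ^ g := by
        rw [hn]; exact_mod_cast h2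
      rw [if_pos hu]
      set X : ℝ := ((1 + (univ \ C).card + (rt (s * u⁻¹) + rt (u * t⁻¹)) : ℕ) : ℝ) with hX
      have hX0 : 0 ≤ X := by rw [hX]; positivity
      calc _ ≤ (64 * X * n ^ g) / v ^ (g + 2) := div_le_div_of_nonneg_right h2' (by positivity)
        _ = 64 * X * (n ^ g / v ^ (g + 2)) := by ring
        _ ≤ 64 * X * (81 / n ^ 2) :=
          mul_le_mul_of_nonneg_left (pow_ratio n v hnpos hv' g hg) (by positivity)
        _ = _ := by ring
    · rw [if_neg hu]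
      have h2 : (univ.filter fun x : Fin (g + 2) → G => x 0 = u ∧ ¬ ok C s t x).card ≤
          Fintype.card G ^ (g + 1) := by
        have h3 : (univ.filter fun x : Fin (g + 2) → G => x 0 = u ∧ ¬ ok C s t x).card ≤
            (univ : Finset (Fin (g + 1) → G)).card := by
          refine Finset.card_le_card_of_injOn (fun x => Fin.tail x) (fun _ _ => by simp) ?_
          intro x hx y hy hxy
          simp only [coe_filter, mem_univ, true_and, Set.mem_ofPred_eq] at hx hy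
          have hxy' : Fin.tail x = Fin.tail y := hxy
          rw [← Fin.cons_self_tail x, ← Fin.cons_self_tail y, hxy', hx.1, hy.1]
        simpa using h3
      have h2' : ((univ.filter fun x : Fin (g + 2) → G => x 0 = u ∧ ¬ ok C s t x).card : ℝ) ≤
          n ^ (g + 1) := by
        rw [hn]; exact_mod_cast h2
      have hX0 : 0 ≤ 5184 * ((1 + (univ \ C).card + (rt (s * u⁻¹) + rt (u * t⁻¹)) : ℕ) : ℝ) /
          n ^ 2 := by positivity
      have h4 := pow_ratio n v hnpos hv' g hg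
      calc _ ≤ n ^ (g + 1) / v ^ (g + 2) := div_le_div_of_nonneg_right h2' (by positivity)
        _ = n * (n ^ g / v ^ (g + 2)) := by rw [pow_succ]; ring
        _ ≤ n * (81 / n ^ 2) := mul_le_mul_of_nonneg_left h4 hnpos.le
        _ = 81 * 1 / n := by field_simp
        _ ≤ _ := by linarith
  have hpt : ∀ u ∈ V, ∀ u' ∈ V, |yV u - yV u'| * (1 / v -
      (5184 * ((1 + (univ \ C).card + (rt (s * u⁻¹) + rt (u * t⁻¹)) : ℕ) : ℝ) /
        n ^ 2 + 81 * (if s⁻¹ * u ∈ C then 0 else 1) / n) -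
      (5184 * ((1 + (univ \ C).card + (rt (s * u'⁻¹) + rt (u' * t⁻¹)) : ℕ) : ℝ) /
        n ^ 2 + 81 * (if s⁻¹ * u' ∈ C then 0 else 1) / n)) ≤
      |yV u - yV u'| * (((NN V C s t g u u').card : ℝ) / v ^ (g + 2)) := by
    intro u hu u' hu'
    apply mul_le_mul_of_nonneg_left _ (abs_nonneg _)
    have h2 := V2 g V C s t u u' hu hu'
    have h2' : v ^ (g + 1) ≤ ((NN V C s t g u u').card : ℝ) +
        (((univ.filter fun x : Fin (g + 2) → G => x 0 = u ∧ ¬ ok C s t x).card : ℝ) +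
        ((univ.filter fun x : Fin (g + 2) → G => x 0 = u' ∧ ¬ ok C s t x).card : ℝ)) := by
      rw [hvdef]; exact_mod_cast h2
    have h3 := hbad u
    have h4 := hbad u'
    have h5 : v ^ (g + 1) / v ^ (g + 2) ≤ (((NN V C s t g u u').card : ℝ) +
        (((univ.filter fun x : Fin (g + 2) → G => x 0 = u ∧ ¬ ok C s t x).card : ℝ) +
        ((univ.filter fun x : Fin (g + 2) → G => x 0 = u' ∧ ¬ ok C s t x).card : ℝ))) /
        v ^ (g + 2) := div_le_div_of_nonneg_right h2' (by positivity)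
    have h6 : v ^ (g + 1) / v ^ (g + 2) = 1 / v := by
      rw [pow_succ v (g + 1)]
      field_simp
    rw [h6, add_div, add_div] at h5
    linarith
  calc _ ≤ ∑ u ∈ V, ∑ u' ∈ V, |yV u - yV u'| *
        (((NN V C s t g u u').card : ℝ) / v ^ (g + 2)) :=
        Finset.sum_le_sum fun u hu => Finset.sum_le_sum fun u' hu' => hpt u hu u' hu'
    _ = (∑ u ∈ V, ∑ u' ∈ V, |yV u - yV u'| * ((NN V C s t g u u').card : ℝ)) /
        v ^ (g + 2) := by
        simp only [Finset.sum_div]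
        exact Finset.sum_congr rfl fun _ _ => Finset.sum_congr rfl fun _ _ => by ring
    _ ≤ (2 * v * A + 4 * v ^ (g + 2) * E) / v ^ (g + 2) :=
        div_le_div_of_nonneg_right h1 (by positivity)
    _ = _ := by
        field_simp

end a

end Pool.OM.H59
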